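import Pool.Agent.H348.GB.Rows

/-!
# Closing up: finitely many branching rows give `ℤ²`
-/

set_option autoImplicit false

namespace Pool.Agent.H348.GB

open Function Set
open Pool.Agent.W5h69.CR

variable {V : Type*} {G : Type*} [Group G] [MulAction G V] {Γ : SimpleGraph V} {K : Set V}

/-- a half-plane with a period gives `ℤ²` -/
theorem half_plane (hG : Geo Γ G K) {h : ℤ × ℤ → V} (hf : IsFlat Γ h) {T : G} {S : ℕ}
    (hS : 0 < S) (hT : ∀ i j : ℤ, 0 ≤ j → T • h (i, j) = h (i + S, j)) :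
    ∃ φ : Multiplicative (ℤ × ℤ) →* G, Injective φ := by
  obtain ⟨D, hD⟩ := hG.nested
  have hS' : (0 : ℤ) < S := by exact_mod_cast hS
  obtain ⟨i, j, hij, hjD, hn⟩ := hD h hf (fun i => (i : ℤ) * S) (fun i j h1 _ =>
    mul_lt_mul_of_pos_right (by exact_mod_cast h1) hS')
  obtain ⟨d, rfl⟩ := Nat.exists_eq_add_of_lt hij
  obtain ⟨Z, hZ⟩ := zfin' hG (D * S)
  have hle : ((d + 1 : ℕ) : ℤ) * S ≤ ((D * S : ℕ) : ℤ) := by
    rw [Nat.cast_mul]
    exact mul_le_mul_of_nonneg_right (by exact_mod_cast (by omega : d + 1 ≤ D)) hS'.le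
  have hpos : (0 : ℤ) < ((d + 1 : ℕ) : ℤ) * S := mul_pos (by positivity) hS'
  have e0 : ((i + d + 1 : ℕ) : ℤ) * S = (i : ℤ) * S + ((d + 1 : ℕ) : ℤ) * S := by
    push_cast
    ring
  refine hZ h hf (T ^ (d + 1)) ((i : ℤ) * S) (((i + d + 1 : ℕ) : ℤ) * S) 0 ?_ ?_ hn ?_
  · rw [e0]; omega
  · rw [e0]; omega
  · intro t t1 _
    have it := iter_right h T S ((i : ℤ) * S) t hS'.le (fun x _ => hT x t t1) (d + 1)
    refine ⟨?_, ?_⟩
    · rw [it _ le_rfl, e0]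
    · rw [it _ (by omega), e0]
      congr 2
      ring

/-- a flat with a periodic row: if the branching rows fall into finitely many orbits then there is
`ℤ²` -/
theorem close_per (hG : Geo Γ G K) {L : Set (ℤ × ℤ → V)} (hL : Sys G Γ L) {h : ℤ × ℤ → V}
    (hh : h ∈ L) {T : G} {s : ℕ} (hs : 0 < s) (hT : ∀ i : ℤ, T • h (i, 0) = h (i + s, 0))
    {N M : ℕ} (c : Amb L N → Fin M)
    (hc : ∀ q q' : Amb L N, c q = c q' → ∃ g : G, ∀ i, g • q.1 i = q'.1 i) :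
    ∃ φ : Multiplicative (ℤ × ℤ) →* G, Injective φ := by
  classical
  by_contra hZ
  have hf := hL.flat h hh
  have hTn : ∀ (n : ℕ) (i : ℤ), T ^ n • h (i, 0) = h (i + n * s, 0) := by
    intro n
    induction n with
    | zero => intro i; simp
    | succ n ih =>
      intro i
      rw [pow_succ, mul_smul, hT, ih]
      congr 2
      push_cast
      ring
  -- the translates of the half-plane
  let H : ℕ → ℤ × ℤ → V := fun m z => T ^ m • h (z + (-(m * s : ℤ), 0))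
  have HL : ∀ m, H m ∈ L := fun m => hL.mv h hh (T ^ m) (-(m * s : ℤ), 0)
  have Hf : ∀ m, IsFlat Γ (H m) := fun m => hL.flat _ (HL m)
  have Heq : ∀ m (i j : ℤ), H m (i, j) = T ^ m • h (i - m * s, j) := by
    intro m i j
    show T ^ m • h ((i, j) + (-(m * s : ℤ), 0)) = _
    rw [Prod.mk_add_mk, add_zero, sub_eq_add_neg]
  have H0 : ∀ m i, H m (i, 0) = h (i, 0) := by
    intro m i
    rw [Heq, hTn]
    congr 2
    ring
  have rows_up : ∀ (m m' Y : ℕ), (∀ j : ℕ, j ≤ Y → H m (0, j) = H m' (0, j)) →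
      ∀ j : ℕ, j ≤ Y → ∀ i : ℤ, H m (i, j) = H m' (i, j) := by
    intro m m' Y h1 j
    induction j with
    | zero =>
      intro _ i
      rw [Nat.cast_zero, H0, H0]
    | succ j ih =>
      intro hj i
      exact row_all hG (Hf m) (Hf m') (y := (j : ℤ)) (y' := ((j + 1 : ℕ) : ℤ)) (by
        push_cast; simp) (fun i => ih (by omega) i) (x := 0) (h1 (j + 1) hj) i
  -- agreement of two of them gives a period
  have per : ∀ (m d : ℕ) (y : ℤ), (∀ i, H m (i, y) = H (m + d) (i, y)) →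
      ∀ i, T ^ d • h (i, y) = h (i + ((d * s : ℕ) : ℤ), y) := by
    intro m d y hmd i
    have := hmd (i + (m + d : ℕ) * s)
    rw [Heq, Heq, pow_add, mul_smul] at this
    have := smul_left_cancel _ this
    rw [show i + ((m + d : ℕ) : ℤ) * s - m * s = i + ((d * s : ℕ) : ℤ) by push_cast; ring,
      show i + ((m + d : ℕ) : ℤ) * s - ((m + d : ℕ) : ℤ) * s = i by ring] at this
    exact this.symm
  -- finiteness of the possible columns
  have colfin : ∀ (Y : ℕ), ∃ m m' : ℕ, m < m' ∧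
      ∀ j : ℕ, j ≤ Y → H m (0, j) = H m' (0, j) := by
    intro Y
    have hfin : (Set.univ.pi fun j : Fin (Y + 1) => {w | Γ.dist (h (0, 0)) w ≤ j.1}).Finite :=
      Set.Finite.pi fun j => hG.ball j.1 (h (0, 0))
    obtain ⟨m, hm, m', hm', hne, he⟩ := (Set.infinite_univ (α := ℕ)).exists_ne_map_eq_of_mapsTo
      (f := fun m => fun j : Fin (Y + 1) => H m (0, (j.1 : ℤ))) (by
        intro m _
        rw [Set.mem_univ_pi]
        intro j
        show Γ.dist (h (0, 0)) (H m (0, (j.1 : ℤ))) ≤ j.1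
        rw [← H0 m 0, flat_dist (Hf m) (n := j.1) (by simp)]) hfin
    wlog hlt : m < m' generalizing m m'
    · exact this m' hm' m hm hne.symm he.symm (by omega)
    refine ⟨m, m', hlt, fun j hj => ?_⟩
    exact congrFun he ⟨j, by omega⟩
  -- two different translates separate
  have sep : ∀ m m' : ℕ, m < m' → ∃ y : ℕ, (∀ j : ℕ, j ≤ y → ∀ i, H m (i, j) = H m' (i, j)) ∧
      H m (0, y + 1) ≠ H m' (0, y + 1) := by
    intro m m' hlt
    have hex : ∃ j : ℕ, H m (0, j) ≠ H m' (0, j) := by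
      by_contra hcon
      push Not at hcon
      apply hZ
      obtain ⟨d, rfl⟩ := Nat.exists_eq_add_of_lt hlt
      refine half_plane hG hf (T := T ^ (d + 1)) (S := (d + 1) * s) (by positivity)
        fun i j hj => ?_
      obtain ⟨j, rfl⟩ := Int.eq_ofNat_of_zero_le hj
      exact per m (d + 1) j (fun i => rows_up m (m + (d + 1)) j
        (fun j _ => hcon j) j le_rfl i) i
    have hfind := Nat.find_spec hex
    have hmin := fun j (hj : j < Nat.find hex) => Nat.find_min hex hj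
    have hpos : Nat.find hex ≠ 0 := by
      intro h0
      rw [h0] at hfind
      apply hfind
      rw [Nat.cast_zero, H0, H0]
    refine ⟨Nat.find hex - 1, ?_, ?_⟩
    · exact rows_up m m' _ (fun j hj => by
        have := hmin j (by omega)
        push Not at this
        exact this)
    · have e : ((Nat.find hex - 1 : ℕ) : ℤ) + 1 = (Nat.find hex : ℕ) := by omega
      rw [e]
      exact hfind
  -- the rows at which they separate
  have hY : ∀ Y : ℕ, ∃ y : ℕ, Y < y ∧ (fun i => h (i, (y : ℤ))) ∈ Amb L N := by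
    intro Y
    obtain ⟨m, m', hlt, hag⟩ := colfin (Y + N + 2)
    obtain ⟨y, hy1, hy2⟩ := sep m m' hlt
    have hyY : Y + N + 2 ≤ y := by
      by_contra hcon
      push Not at hcon
      apply hy2
      have := hag (y + 1) (by omega)
      simpa using this
    refine ⟨y, by omega, ?_⟩
    have hmem : (fun i => H m (i, y)) ∈ Amb L N := by
      have e1 := hL.mv _ (HL m) (1 : G) (0, (y : ℤ))
      have e2 := hL.mv _ (HL m') (1 : G) (0, (y : ℤ))
      refine ⟨_, e1, _, e2, fun i => ?_, fun i j j1 j2 => ?_, ?_⟩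
      · simp
      · simp only [one_smul, Prod.mk_add_mk, add_zero]
        obtain ⟨j', hj'⟩ : ∃ j' : ℕ, (j' : ℤ) = j + y := ⟨(j + y).toNat, by omega⟩
        rw [← hj']
        exact hy1 j' (by omega) i
      · simp only [one_smul, Prod.mk_add_mk, add_zero]
        rw [add_comm (1 : ℤ)]
        exact hy2
    have := amb_mv hG hL hmem (T ^ m)⁻¹ (m * s)
    convert this using 2 with i
    rw [Heq, inv_smul_smul, add_sub_cancel_right]
  let Ys : Set ℕ := {y | (fun i => h (i, (y : ℤ))) ∈ Amb L N}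
  have hYs : Ys.Infinite := by
    rw [Set.infinite_iff_exists_gt]
    intro a
    obtain ⟨y, h1, h2⟩ := hY a
    exact ⟨y, h2, h1⟩
  have hYinf : Infinite Ys := hYs.to_subtype
  obtain ⟨c0, hc0⟩ := Finite.exists_infinite_fiber (fun y : Ys => c ⟨_, y.2⟩)
  obtain ⟨y0⟩ : Nonempty ((fun y : Ys => c ⟨_, y.2⟩) ⁻¹' {c0}) := inferInstance
  have hgex : ∀ y : ((fun y : Ys => c ⟨_, y.2⟩) ⁻¹' {c0}), ∃ g : G,
      ∀ i, g • h (i, ((y0.1.1 : ℕ) : ℤ)) = h (i, ((y.1.1 : ℕ) : ℤ)) := by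
    intro y
    exact hc ⟨_, y0.1.2⟩ ⟨_, y.1.2⟩ (y0.2.trans y.2.symm)
  choose γ hγ using hgex
  have hnb : {w | Γ.dist (h (0, ((y0.1.1 : ℕ) : ℤ))) w ≤ 1}.Finite := hG.ball 1 _
  have := hnb.to_subtype
  obtain ⟨F, hF⟩ : ∃ F : ((fun y : Ys => c ⟨_, y.2⟩) ⁻¹' {c0}) →
      {w | Γ.dist (h (0, ((y0.1.1 : ℕ) : ℤ))) w ≤ 1},
      ∀ y, (F y).1 = (γ y)⁻¹ • h (0, ((y.1.1 : ℕ) : ℤ) + 1) :=
    ⟨fun y => ⟨(γ y)⁻¹ • h (0, ((y.1.1 : ℕ) : ℤ) + 1), by
        show Γ.dist _ _ ≤ 1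
        rw [← hG.dist (γ y), smul_inv_smul, hγ, flat_dist hf (n := 1) (by simp)]⟩, fun y => rfl⟩
  obtain ⟨w0, hw0⟩ := Finite.exists_infinite_fiber F
  -- the heights which remain
  let Y2 : Set ℕ := {y | ∃ g : G, (∀ i, g • h (i, ((y0.1.1 : ℕ) : ℤ)) = h (i, (y : ℤ))) ∧
    g • w0.1 = h (0, (y : ℤ) + 1)}
  have hY2 : Infinite Y2 := by
    refine Infinite.of_injective (fun y : (F ⁻¹' {w0}) =>
      (⟨y.1.1.1, γ y.1, hγ y.1, ?_⟩ : Y2)) ?_
    · have h1 := y.2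
      rw [Set.mem_preimage, Set.mem_singleton_iff] at h1
      have h2 := hF y.1
      rw [h1] at h2
      rw [h2, smul_inv_smul]
    · intro a b hab
      have h1 := congrArg Subtype.val hab
      exact Subtype.ext (Subtype.ext (Subtype.ext h1))
  obtain ⟨D, hD⟩ := hG.nested
  let e : ℕ ↪o ℕ := Nat.orderEmbeddingOfSet Y2
  have he : ∀ n, e n ∈ Y2 := fun n => by
    have : e n ∈ Set.range e := ⟨n, rfl⟩
    rwa [Nat.orderEmbeddingOfSet_range] at this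
  obtain ⟨i0, j0, hij0, -, hnest⟩ := hD _ hf.swap (fun i => (e i : ℤ)) (fun i j h1 _ => by
    have := e.lt_iff_lt.2 h1
    exact_mod_cast this)
  obtain ⟨y, hy⟩ : ∃ y, y = e i0 := ⟨_, rfl⟩
  obtain ⟨y', hy'⟩ : ∃ y', y' = e j0 := ⟨_, rfl⟩
  have hyy : y < y' := by rw [hy, hy']; exact e.lt_iff_lt.2 hij0
  have hy2 := he i0
  have hy2' := he j0
  rw [← hy] at hnest hy2
  rw [← hy'] at hnest hy2'
  obtain ⟨ga, ha1, ha2⟩ := hy2
  obtain ⟨gb, hb1, hb2⟩ := hy2'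
  obtain ⟨g, hg0, hg1⟩ : ∃ g : G, (∀ i, g • h (i, (y : ℤ)) = h (i, (y' : ℤ))) ∧
      g • h (0, (y : ℤ) + 1) = h (0, (y' : ℤ) + 1) := by
    refine ⟨gb * ga⁻¹, fun i => ?_, ?_⟩
    · rw [← ha1, mul_smul, inv_smul_smul, hb1]
    · rw [← ha2, mul_smul, inv_smul_smul, hb2]
  -- common periods
  have hper : ∀ y : ℕ, ∃ d : ℕ, 0 < d ∧ ∀ i, T ^ d • h (i, (y : ℤ)) =
      h (i + ((d * s : ℕ) : ℤ), (y : ℤ)) := by
    intro y
    obtain ⟨m, m', hlt, hag⟩ := colfin y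
    obtain ⟨d, rfl⟩ := Nat.exists_eq_add_of_lt hlt
    exact ⟨d + 1, by omega, per m (d + 1) y fun i => rows_up m (m + (d + 1)) y hag y le_rfl i⟩
  have mulper : ∀ {y : ℤ} {d : ℕ}, (∀ i, T ^ d • h (i, y) = h (i + ((d * s : ℕ) : ℤ), y)) →
      ∀ (c : ℕ) (i : ℤ), T ^ (d * c) • h (i, y) = h (i + ((d * c * s : ℕ) : ℤ), y) := by
    intro y d hr c
    induction c with
    | zero => intro i; simp
    | succ c ih =>
      intro i
      rw [mul_add, mul_one, pow_add, mul_smul, hr, ih]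
      congr 2
      push_cast
      ring
  obtain ⟨d1, p1, q1⟩ := hper y
  obtain ⟨d2, p2, q2⟩ := hper (y + 1)
  obtain ⟨d3, p3, q3⟩ := hper y'
  obtain ⟨P, hP, r1, r2, r3⟩ : ∃ P : ℕ, 0 < P ∧
      (∀ i, T ^ P • h (i, (y : ℤ)) = h (i + ((P * s : ℕ) : ℤ), (y : ℤ))) ∧
      (∀ i, T ^ P • h (i, (y : ℤ) + 1) = h (i + ((P * s : ℕ) : ℤ), (y : ℤ) + 1)) ∧
      (∀ i, T ^ P • h (i, (y' : ℤ)) = h (i + ((P * s : ℕ) : ℤ), (y' : ℤ))) := by
    refine ⟨d1 * d2 * d3, by positivity, ?_, ?_, ?_⟩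
    · intro i
      have := mulper q1 (d2 * d3) i
      rwa [← mul_assoc] at this
    · intro i
      have := mulper q2 (d1 * d3) i
      rw [show d2 * (d1 * d3) = d1 * d2 * d3 by ring] at this
      push_cast at this ⊢
      exact this
    · intro i
      have := mulper q3 (d1 * d2) i
      rwa [show d3 * (d1 * d2) = d1 * d2 * d3 by ring] at this
  obtain ⟨K0, hK0, hpow⟩ := pow_eq hG
  have hcomm : Commute g (T ^ (P * K0)) := by
    have h1 := hpow (T ^ P) (g * T ^ P * g⁻¹) (fun i => h (i, (y' : ℤ))) 0 ((P * s : ℕ) : ℤ)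
      (by positivity) (fun t _ => ⟨r3 t, by
        show (g * T ^ P * g⁻¹) • h (t, (y' : ℤ)) = h (t + ((P * s : ℕ) : ℤ), (y' : ℤ))
        rw [← hg0 t, mul_smul, mul_smul, inv_smul_smul, r1, hg0]⟩)
    rw [conj_pow, ← pow_mul] at h1
    show g * T ^ (P * K0) = T ^ (P * K0) * g
    rw [eq_comm, ← eq_mul_inv_iff_mul_eq]
    exact h1
  -- a pair of nested columns
  have hQ : (0 : ℤ) < ((P * K0 * s : ℕ) : ℤ) := by positivity
  obtain ⟨i1, j1, hij1, -, hn1⟩ := hD h hf (fun i => (i : ℤ) * ((P * K0 * s : ℕ) : ℤ))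
    (fun i j h1 _ => mul_lt_mul_of_pos_right (by exact_mod_cast h1) hQ)
  obtain ⟨d, rfl⟩ := Nat.exists_eq_add_of_lt hij1
  obtain ⟨x1, hx1⟩ : ∃ x1 : ℤ, x1 = (i1 : ℤ) * ((P * K0 * s : ℕ) : ℤ) := ⟨_, rfl⟩
  obtain ⟨E, hE⟩ : ∃ E : ℕ, E = P * (K0 * (d + 1)) * s := ⟨_, rfl⟩
  have hEpos : (0 : ℤ) < E := by rw [hE]; positivity
  have hx2 : ((i1 + d + 1 : ℕ) : ℤ) * ((P * K0 * s : ℕ) : ℤ) = x1 + E := by
    rw [hx1, hE]
    push_cast
    ring
  simp only [hx2] at hn1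
  rw [← hx1] at hn1
  obtain ⟨σ, hσ⟩ : ∃ σ : G, σ = T ^ (P * (K0 * (d + 1))) := ⟨_, rfl⟩
  have s1 : ∀ i, σ • h (i, (y : ℤ)) = h (i + E, (y : ℤ)) := by
    intro i
    rw [hσ, hE]
    have : ∀ c : ℕ, ∀ i, T ^ (P * c) • h (i, (y : ℤ)) = h (i + ((P * c * s : ℕ) : ℤ), (y : ℤ)) :=
      fun c i => mulper r1 c i
    exact this _ i
  have s2 : ∀ i, σ • h (i, (y : ℤ) + 1) = h (i + E, (y : ℤ) + 1) := by
    intro i
    rw [hσ, hE]
    exact mulper r2 _ i
  have hcσ : σ * g = g * σ := by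
    have h1 : σ = (T ^ (P * K0)) ^ (d + 1) := by
      rw [hσ, ← pow_mul, mul_assoc]
    rw [h1]
    exact (hcomm.pow_right (d + 1)).symm
  apply hZ
  have hfs := hf.swap
  refine zcrit σ g hcσ (Rt Γ h x1 y) (Rt Γ (fun z => h (z.2, z.1)) y 0) (fun v hv => ?_)
    (h (0, (y : ℤ) + 1)) (Rt_self hfs le_rfl 0) ?_ (fun v => ?_) (fun v hv => ?_)
    (h (x1 + 1, (y : ℤ))) (Rt_self hf le_rfl _) ?_
  · refine hnest 0 _ ?_
    show Γ.dist (g • v) (h (0, (y' : ℤ) + 1)) < Γ.dist (g • v) (h (0, (y' : ℤ)))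
    rw [← hg1, ← hg0, hG.dist, hG.dist]
    exact hv
  · intro h1
    refine not_Rt hfs (x := y) (x' := y') (by exact_mod_cast hyy) 0 ?_
    show Γ.dist (h (0, (y : ℤ) + 1)) (h (0, (y' : ℤ) + 1)) <
      Γ.dist (h (0, (y : ℤ) + 1)) (h (0, (y' : ℤ)))
    have h2 : Γ.dist (g⁻¹ • h (0, (y : ℤ) + 1)) (h (0, (y : ℤ) + 1)) <
      Γ.dist (g⁻¹ • h (0, (y : ℤ) + 1)) (h (0, (y : ℤ))) := h1
    rw [← hG.dist g, ← hG.dist g (g⁻¹ • _) (h (0, (y : ℤ))), smul_inv_smul, hg1, hg0] at h2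
    exact h2
  · rw [Rt_row hG.med hfs y 0 E (σ • v)]
    show Γ.dist v (h (0, (y : ℤ) + 1)) < Γ.dist v (h (0, (y : ℤ))) ↔
      Γ.dist (σ • v) (h ((E : ℤ), (y : ℤ) + 1)) < Γ.dist (σ • v) (h ((E : ℤ), (y : ℤ)))
    have e1 := s1 0
    have e2 := s2 0
    rw [zero_add] at e1 e2
    rw [← e1, ← e2, hG.dist, hG.dist]
  · refine hn1 y _ ?_
    show Γ.dist (σ • v) (h (x1 + E + 1, (y : ℤ))) < Γ.dist (σ • v) (h (x1 + E, (y : ℤ)))
    rw [show x1 + (E : ℤ) + 1 = x1 + 1 + E by ring, ← s1, ← s1, hG.dist, hG.dist]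
    exact hv
  · intro h1
    refine not_Rt hf (x := x1) (x' := x1 + E) (by omega) y ?_
    show Γ.dist (h (x1 + 1, (y : ℤ))) (h (x1 + E + 1, (y : ℤ))) <
      Γ.dist (h (x1 + 1, (y : ℤ))) (h (x1 + E, (y : ℤ)))
    have h2 : Γ.dist (σ⁻¹ • h (x1 + 1, (y : ℤ))) (h (x1 + 1, (y : ℤ))) <
      Γ.dist (σ⁻¹ • h (x1 + 1, (y : ℤ))) (h (x1, (y : ℤ))) := h1
    rw [← hG.dist σ, ← hG.dist σ (σ⁻¹ • _) (h (x1, (y : ℤ))), smul_inv_smul, s1, s1] at h2
    rwa [show x1 + (E : ℤ) + 1 = x1 + 1 + E by ring]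

/-- finitely many orbits of branching rows give `ℤ²` -/
theorem close (hG : Geo Γ G K) {L : Set (ℤ × ℤ → V)} (hL : Sys G Γ L) {N M : ℕ}
    (hne : (Amb L N).Nonempty) (c : Amb L N → Fin M)
    (hc : ∀ q q' : Amb L N, c q = c q' → ∃ g : G, ∀ i, g • q.1 i = q'.1 i) :
    ∃ φ : Multiplicative (ℤ × ℤ) →* G, Injective φ := by
  obtain ⟨q, hq⟩ := hne
  have sh : ∀ (m : ℤ), (fun i => q (i + m)) ∈ Amb L N := fun m => by
    simpa using amb_mv hG hL hq (1 : G) m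
  obtain ⟨a, b, hab, he⟩ := Finite.exists_ne_map_eq_of_infinite
    (fun m : ℕ => c ⟨fun i => q (i + m), sh m⟩)
  wlog hlt : a < b generalizing a b
  · exact this b a hab.symm he.symm (by omega)
  obtain ⟨T, hT⟩ := hc _ _ he
  simp only [] at hT
  obtain ⟨h, hh, k, hk, h0, -, -⟩ := hq
  refine close_per hG hL hh (T := T) (s := b - a) (by omega) (fun i => ?_) c hc
  have := hT (i - a)
  rw [h0, h0]
  rw [sub_add_cancel] at this
  rw [this]
  congr 1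
  omega

end Pool.Agent.H348.GB
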