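import Pool.Agent.H348.GB.Close

/-!
# Four limit flats which branch in both directions
-/

set_option autoImplicit false

namespace Pool.Agent.H348.GB

open Function Set
open Pool.Agent.W5h69.CR

variable {V : Type*} {G : Type*} [Group G] [MulAction G V] {Γ : SimpleGraph V} {K : Set V}

/-- compactness for finite families of flats with the same base point -/
theorem Sys.limitF (hG : Geo Γ G K) {L : Set (ℤ × ℤ → V)} (hL : Sys G Γ L) {ι : Type*} [Finite ι]
    (i₁ : ι) (F : ℕ → ι → ℤ × ℤ → V) (hF : ∀ n i, F n i ∈ L)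
    (h0 : ∀ n i, F n i 0 = F n i₁ 0) :
    ∃ F' : ι → ℤ × ℤ → V, (∀ i, F' i ∈ L) ∧ ∀ R N : ℕ, ∃ n, N ≤ n ∧ ∃ g : G, ∀ i (z : ℤ × ℤ),
      z.1.natAbs ≤ R → z.2.natAbs ≤ R → F' i z = g • F n i z := by
  choose g hg using fun n => hG.cov (F n i₁ 0)
  obtain ⟨f, hf⟩ := cluster (fun n (z : ι × (ℤ × ℤ)) => g n • F n z.1 z.2)
    (fun z : ι × (ℤ × ℤ) => {w | ∃ u ∈ K, Γ.dist u w ≤ z.2.1.natAbs + z.2.2.natAbs})
    (fun z => ballK hG _) (fun n z =>
      flat_memball hG (hL.flat _ (hF n z.1)) (by rw [h0 n z.1]; exact hg n) z.2)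
  have key : ∀ R N : ℕ, ∃ n, N ≤ n ∧ ∀ i (z : ℤ × ℤ), z.1.natAbs ≤ R → z.2.natAbs ≤ R →
      f (i, z) = g n • F n i z := by
    intro R N
    obtain ⟨n, hn, hn2⟩ := hf (Set.univ ×ˢ {z : ℤ × ℤ | z.1.natAbs ≤ R ∧ z.2.natAbs ≤ R})
      (Set.finite_univ.prod (win_finite R)) N
    refine ⟨n, hn, fun i z h1 h2 => ?_⟩
    exact (hn2 (i, z) ⟨trivial, h1, h2⟩).symm
  refine ⟨fun i z => f (i, z), fun i => ?_, fun R N => ?_⟩
  · apply hL.clo
    intro R
    obtain ⟨n, _, hn⟩ := key R 0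
    exact ⟨_, hL.mv _ (hF n i) (g n) 0, fun z h1 h2 => by simpa using hn i z h1 h2⟩
  · obtain ⟨n, hn, hn2⟩ := key R N
    exact ⟨n, hn, g n, hn2⟩

/-- two branching pairs with the same data near the origin -/
structure Qd (L : Set (ℤ × ℤ → V)) (N : ℕ) (h k h' k' : ℤ × ℤ → V) : Prop where
  hh : h ∈ L
  hk : k ∈ L
  hh' : h' ∈ L
  hk' : k' ∈ L
  low : ∀ i j : ℤ, -N ≤ j → j ≤ 0 → h (i, j) = k (i, j)
  low' : ∀ i j : ℤ, -N ≤ j → j ≤ 0 → h' (i, j) = k' (i, j)
  ne : h (0, 1) ≠ k (0, 1)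
  box : ∀ z : ℤ × ℤ, z.1.natAbs ≤ N → z.2.natAbs ≤ N → h z = h' z
  box' : ∀ z : ℤ × ℤ, z.1.natAbs ≤ N → z.2.natAbs ≤ N → k z = k' z

theorem Qd.mono {L : Set (ℤ × ℤ → V)} {N M : ℕ} (hNM : N ≤ M) {h k h' k' : ℤ × ℤ → V}
    (hq : Qd L M h k h' k') : Qd L N h k h' k' :=
  ⟨hq.hh, hq.hk, hq.hh', hq.hk', fun i j h1 h2 => hq.low i j (by omega) h2,
    fun i j h1 h2 => hq.low' i j (by omega) h2, hq.ne,
    fun z h1 h2 => hq.box z (by omega) (by omega), fun z h1 h2 => hq.box' z (by omega) (by omega)⟩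

/-- without `ℤ²` the data near the origin do not determine the branching row -/
theorem exists_qd (hG : Geo Γ G K) {L : Set (ℤ × ℤ → V)} (hL : Sys G Γ L) {f : ℤ × ℤ → V}
    (hfL : f ∈ L) (hno : ¬ ∃ φ : Multiplicative (ℤ × ℤ) →* G, Injective φ) (N : ℕ) :
    ∃ h k h' k', Qd L N h k h' k' ∧ ∃ i : ℤ, h (i, 0) ≠ h' (i, 0) := by
  classical
  by_contra hcon
  push Not at hcon
  obtain ⟨h₀, hh₀, k₀, hk₀, h1₀, h2₀⟩ := up_pair hG hL hfL hno
  have hne : (Amb L N).Nonempty :=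
    ⟨fun i => h₀ (i, 0), h₀, hh₀, k₀, hk₀, fun _ => rfl, fun i j _ hj => h1₀ i j hj, h2₀⟩
  choose γ hγ using fun v : V => hG.cov v
  have hw : ∀ q : Amb L N, ∃ h ∈ L, ∃ k ∈ L, (∀ i : ℤ, h (i, 0) = q.1 i) ∧
    (∀ i j : ℤ, -N ≤ j → j ≤ 0 → h (i, j) = k (i, j)) ∧ h (0, 1) ≠ k (0, 1) := fun q => q.2
  choose h hh k hk h0 h1 h2 using hw
  let B : Set V := {w | ∃ u ∈ K, Γ.dist u w ≤ 2 * N}
  let Bx : Set (ℤ × ℤ) := {z : ℤ × ℤ | z.1.natAbs ≤ N ∧ z.2.natAbs ≤ N}
  have fin1 : Finite B := (ballK hG _).to_subtype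
  have fin2 : Finite Bx := (win_finite N).to_subtype
  have mem : ∀ (q : Amb L N) (z : Bx), γ (q.1 0) • h q z ∈ B ∧ γ (q.1 0) • k q z ∈ B := by
    intro q z
    have hz := z.2
    have e1 := h0 q 0
    have e2 := (h1 q 0 0 (by omega) le_rfl).symm.trans e1
    obtain ⟨u1, hu1, hd1⟩ := flat_memball hG (hL.flat _ (hh q)) (g := γ (q.1 0)) (by
      rw [show (0 : ℤ × ℤ) = (0, 0) from rfl, e1]; exact hγ _) z.1
    obtain ⟨u2, hu2, hd2⟩ := flat_memball hG (hL.flat _ (hk q)) (g := γ (q.1 0)) (by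
      rw [show (0 : ℤ × ℤ) = (0, 0) from rfl, e2]; exact hγ _) z.1
    have hz1 : z.1.1.natAbs ≤ N := hz.1
    have hz2 : z.1.2.natAbs ≤ N := hz.2
    exact ⟨⟨u1, hu1, by omega⟩, ⟨u2, hu2, by omega⟩⟩
  let data : Amb L N → (Bx → B × B) := fun q z =>
    (⟨γ (q.1 0) • h q z, (mem q z).1⟩, ⟨γ (q.1 0) • k q z, (mem q z).2⟩)
  obtain ⟨M, ⟨e⟩⟩ := Finite.exists_equiv_fin (Bx → B × B)
  refine hno (close hG hL hne (fun q => e (data q)) fun q q' hqq => ?_)
  have hd := e.injective hqq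
  refine ⟨(γ (q'.1 0))⁻¹ * γ (q.1 0), fun i => ?_⟩
  obtain ⟨g, hg⟩ : ∃ g, g = (γ (q'.1 0))⁻¹ * γ (q.1 0) := ⟨_, rfl⟩
  have hbox : ∀ z : ℤ × ℤ, z.1.natAbs ≤ N → z.2.natAbs ≤ N →
      g • h q z = h q' z ∧ g • k q z = k q' z := by
    intro z z1 z2
    have := congrFun hd ⟨z, z1, z2⟩
    simp only [data, Prod.mk.injEq, Subtype.mk.injEq] at this
    rw [hg, mul_smul, mul_smul, this.1, this.2, inv_smul_smul, inv_smul_smul]
    exact ⟨rfl, rfl⟩
  have key := hcon (fun z => g • h q z) (fun z => g • k q z) (h q') (k q')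
    ⟨by simpa using hL.mv _ (hh q) g 0, by simpa using hL.mv _ (hk q) g 0, hh q', hk q',
      fun i j j1 j2 => by
        show g • h q (i, j) = g • k q (i, j)
        rw [h1 q i j j1 j2], h1 q', fun he => h2 q (smul_left_cancel g he),
      fun z z1 z2 => (hbox z z1 z2).1, fun z z1 z2 => (hbox z z1 z2).2⟩ i
  rw [← hg, ← h0 q i, key, h0 q' i]

/-- agreement on a column and on a row of a rectangle -/
theorem rect_agree (hG : Geo Γ G K) {h h' : ℤ × ℤ → V} (hf : IsFlat Γ h) (hf' : IsFlat Γ h')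
    {i₀ N : ℕ} (hr : ∀ x : ℤ, 0 ≤ x → x ≤ i₀ → h (x, 0) = h' (x, 0))
    (hc : ∀ j : ℤ, -N ≤ j → j ≤ N → h (0, j) = h' (0, j)) :
    ∀ x j : ℤ, 0 ≤ x → x ≤ i₀ → -N ≤ j → j ≤ N → h (x, j) = h' (x, j) := by
  have up : ∀ n : ℕ, n ≤ N → ∀ x : ℤ, 0 ≤ x → x ≤ i₀ → h (x, n) = h' (x, n) := by
    intro n
    induction n with
    | zero => intro _ x x1 x2; simpa using hr x x1 x2
    | succ n ih =>
      intro hn
      exact rowprop hG.med hf hf' (x0 := 0) (x1 := i₀) (y := (n : ℤ)) (y' := ((n + 1 : ℕ) : ℤ))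
        (by push_cast; simp) (ih (by omega)) (x := 0) le_rfl (by omega)
        (hc _ (by omega) (by omega))
  have down : ∀ n : ℕ, n ≤ N → ∀ x : ℤ, 0 ≤ x → x ≤ i₀ → h (x, -n) = h' (x, -n) := by
    intro n
    induction n with
    | zero => intro _ x x1 x2; simpa using hr x x1 x2
    | succ n ih =>
      intro hn
      exact rowprop hG.med hf hf' (x0 := 0) (x1 := i₀) (y := -(n : ℤ)) (y' := -((n + 1 : ℕ) : ℤ))
        (by push_cast; simp) (ih (by omega)) (x := 0) le_rfl (by omega)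
        (hc _ (by omega) (by omega))
  intro x j x1 x2 j1 j2
  rcases le_total 0 j with hj | hj
  · obtain ⟨n, rfl⟩ := Int.eq_ofNat_of_zero_le hj
    exact up n (by omega) x x1 x2
  · obtain ⟨n, hn⟩ := Int.eq_ofNat_of_zero_le (neg_nonneg.2 hj)
    obtain rfl : j = -n := by omega
    exact down n (by omega) x x1 x2

/-- Four flats `F s t` which branch in both directions: `F s false` and `F s true` agree on the
half-plane `j ≤ 0` but not at the vertex `(0, 1)`, and `F false t` and `F true t` agree on the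
half-plane `i ≤ 0` but not at the vertex `(1, 0)`. -/
structure Quad (Γ : SimpleGraph V) (F : Bool → Bool → ℤ × ℤ → V) : Prop where
  flat : ∀ s t, IsFlat Γ (F s t)
  low : ∀ s t t' (i j : ℤ), j ≤ 0 → F s t (i, j) = F s t' (i, j)
  left : ∀ s s' t (i j : ℤ), i ≤ 0 → F s t (i, j) = F s' t (i, j)
  up : ∀ s, F s false (0, 1) ≠ F s true (0, 1)
  right : ∀ t, F false t (1, 0) ≠ F true t (1, 0)

theorem Quad.swap {F : Bool → Bool → ℤ × ℤ → V} (hF : Quad Γ F) :
    Quad Γ (fun s t z => F t s (z.2, z.1)) :=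
  ⟨fun s t => (hF.flat t s).swap, fun s t t' i j hj => hF.left t t' s j i hj,
    fun s s' t i j hi => hF.low t s s' j i hi, fun s => hF.right s, fun t => hF.up t⟩

theorem quad_pos (hG : Geo Γ G K) {L : Set (ℤ × ℤ → V)} (hL : Sys G Γ L)
    (H : ∀ N : ℕ, ∃ h k h' k', Qd L N h k h' k' ∧ ∃ n : ℕ, h (n, 0) ≠ h' (n, 0)) :
    ∃ F : Bool → Bool → ℤ × ℤ → V, (∀ s t, F s t ∈ L) ∧ Quad Γ F := by
  classical
  have H1 : ∀ N : ℕ, ∃ F : Bool × Bool → ℤ × ℤ → V, (∀ i, F i ∈ L) ∧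
      (∀ s (i j : ℤ), -N ≤ j → j ≤ 0 → F (s, false) (i, j) = F (s, true) (i, j)) ∧
      (∀ t (i j : ℤ), -N ≤ i → i ≤ 0 → -N ≤ j → j ≤ N →
        F (false, t) (i, j) = F (true, t) (i, j)) ∧
      (∀ s, F (s, false) (0, 1) ≠ F (s, true) (0, 1)) ∧
      ∀ t, F (false, t) (1, 0) ≠ F (true, t) (1, 0) := by
    intro N
    obtain ⟨h, k, h', k', hq, hd⟩ := H (N + 1)
    have hf := hL.flat _ hq.hh
    have kf := hL.flat _ hq.hk
    have hf' := hL.flat _ hq.hh'
    have kf' := hL.flat _ hq.hk'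
    have hmin := fun m (hm : m < Nat.find hd) => Nat.find_min hd hm
    have hspec := Nat.find_spec hd
    obtain ⟨n, hn⟩ : ∃ n, Nat.find hd = n := ⟨_, rfl⟩
    rw [hn] at hmin hspec
    have hnN : N + 1 < n := by
      by_contra hcon
      push Not at hcon
      exact hspec (hq.box (n, 0) (by simp only [Int.natAbs_natCast]; omega) (by simp))
    obtain ⟨i₀, rfl⟩ : ∃ i₀, n = i₀ + 1 := ⟨n - 1, by omega⟩
    have r1 : ∀ x : ℤ, 0 ≤ x → x ≤ i₀ → h (x, 0) = h' (x, 0) := by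
      intro x x1 x2
      obtain ⟨m, rfl⟩ := Int.eq_ofNat_of_zero_le x1
      have := hmin m (by omega)
      push Not at this
      exact this
    have r2 : ∀ x : ℤ, 0 ≤ x → x ≤ i₀ → k (x, 0) = k' (x, 0) := by
      intro x x1 x2
      rw [← hq.low x 0 (by omega) le_rfl, ← hq.low' x 0 (by omega) le_rfl, r1 x x1 x2]
    have a1 := rect_agree hG hf hf' (N := N + 1) r1 (fun j j1 j2 =>
      hq.box (0, j) (by simp) (by simp only; omega))
    have a2 := rect_agree hG kf kf' (N := N + 1) r2 (fun j j1 j2 =>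
      hq.box' (0, j) (by simp) (by simp only; omega))
    have ne' : h' (0, 1) ≠ k' (0, 1) := by
      rw [← hq.box (0, 1) (by simp) (by simp), ← hq.box' (0, 1) (by simp) (by simp)]
      exact hq.ne
    refine ⟨fun i z => (match i with
      | (false, false) => h
      | (false, true) => k
      | (true, false) => h'
      | (true, true) => k') (z + ((i₀ : ℤ), 0)), ?_, ?_, ?_, ?_, ?_⟩
    · rintro ⟨_ | _, _ | _⟩
      · simpa using hL.mv _ hq.hh (1 : G) ((i₀ : ℤ), 0)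
      · simpa using hL.mv _ hq.hk (1 : G) ((i₀ : ℤ), 0)
      · simpa using hL.mv _ hq.hh' (1 : G) ((i₀ : ℤ), 0)
      · simpa using hL.mv _ hq.hk' (1 : G) ((i₀ : ℤ), 0)
    · rintro (_ | _) i j j1 j2
      · simp only [Prod.mk_add_mk, add_zero]
        exact hq.low _ _ (by omega) j2
      · simp only [Prod.mk_add_mk, add_zero]
        exact hq.low' _ _ (by omega) j2
    · rintro (_ | _) i j i1 i2 j1 j2
      · simp only [Prod.mk_add_mk, add_zero]
        exact a1 _ _ (by omega) (by omega) (by omega) (by omega)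
      · simp only [Prod.mk_add_mk, add_zero]
        exact a2 _ _ (by omega) (by omega) (by omega) (by omega)
    · rintro (_ | _) he
      · simp only [Prod.mk_add_mk, add_zero, zero_add] at he
        exact hq.ne (row_all hG hf kf (y := 0) (y' := 1) (by simp)
          (fun x => hq.low x 0 (by omega) le_rfl) he 0)
      · simp only [Prod.mk_add_mk, add_zero, zero_add] at he
        exact ne' (row_all hG hf' kf' (y := 0) (y' := 1) (by simp)
          (fun x => hq.low' x 0 (by omega) le_rfl) he 0)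
    · have h1 : h (1 + (i₀ : ℤ), 0) ≠ h' (1 + (i₀ : ℤ), 0) := by
        push_cast at hspec
        rwa [add_comm]
      rintro (_ | _) he
      · simp only [Prod.mk_add_mk, add_zero] at he
        exact h1 he
      · simp only [Prod.mk_add_mk, add_zero] at he
        rw [← hq.low _ 0 (by omega) le_rfl, ← hq.low' _ 0 (by omega) le_rfl] at he
        exact h1 he
  choose F hF hlow hleft hup hright using H1
  obtain ⟨F', hF', hlim⟩ := hL.limitF hG ((false, false) : Bool × Bool) F hF (by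
    have c1 : ∀ n s, F n (s, true) (0, 0) = F n (s, false) (0, 0) := fun n s =>
      (hlow n s 0 0 (by omega) le_rfl).symm
    have c2 : ∀ n t, F n (true, t) (0, 0) = F n (false, t) (0, 0) := fun n t =>
      (hleft n t 0 0 (by omega) le_rfl (by omega) (by omega)).symm
    rintro n ⟨_ | _, _ | _⟩
    · rfl
    · exact c1 n false
    · exact c2 n false
    · exact (c1 n true).trans (c2 n false))
  have low1 : ∀ s (i j : ℤ), j ≤ 0 → F' (s, false) (i, j) = F' (s, true) (i, j) := by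
    intro s i j hj
    obtain ⟨n, hn, g, hg⟩ := hlim (i.natAbs + j.natAbs) (i.natAbs + j.natAbs)
    rw [hg _ (i, j) (by simp) (by simp), hg _ (i, j) (by simp) (by simp),
      hlow n s i j (by omega) hj]
  have left1 : ∀ t (i j : ℤ), i ≤ 0 → F' (false, t) (i, j) = F' (true, t) (i, j) := by
    intro t i j hi
    obtain ⟨n, hn, g, hg⟩ := hlim (i.natAbs + j.natAbs) (i.natAbs + j.natAbs)
    rw [hg _ (i, j) (by simp) (by simp), hg _ (i, j) (by simp) (by simp),
      hleft n t i j (by omega) hi (by omega) (by omega)]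
  refine ⟨fun s t => F' (s, t), fun s t => hF' _, fun s t => hL.flat _ (hF' _), ?_, ?_, ?_, ?_⟩
  · rintro s (_ | _) (_ | _) i j hj
    · rfl
    · exact low1 s i j hj
    · exact (low1 s i j hj).symm
    · rfl
  · rintro (_ | _) (_ | _) t i j hi
    · rfl
    · exact left1 t i j hi
    · exact (left1 t i j hi).symm
    · rfl
  · intro s he
    obtain ⟨n, hn, g, hg⟩ := hlim 1 0
    rw [hg _ (0, 1) (by simp) (by simp), hg _ (0, 1) (by simp) (by simp)] at he
    exact hup n s (smul_left_cancel g he)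
  · intro t he
    obtain ⟨n, hn, g, hg⟩ := hlim 1 0
    rw [hg _ (1, 0) (by simp) (by simp), hg _ (1, 0) (by simp) (by simp)] at he
    exact hright n t (smul_left_cancel g he)

/-- the reflected family -/
def refl (L : Set (ℤ × ℤ → V)) : Set (ℤ × ℤ → V) := {h | (fun z : ℤ × ℤ => h (-z.1, z.2)) ∈ L}

theorem refl_sys {L : Set (ℤ × ℤ → V)} (hL : Sys G Γ L) : Sys G Γ (refl L) where
  flat := by
    intro h hh
    have := (hL.flat _ hh).neg1
    simpa using this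
  mv := by
    intro h hh g b
    have := hL.mv _ hh g (-b.1, b.2)
    show (fun z : ℤ × ℤ => g • h ((-z.1, z.2) + b)) ∈ L
    convert this using 2 with z
    congr 2
    ext
    · simp only [Prod.fst_add]; ring
    · simp
  clo := by
    intro h hh
    apply hL.clo
    intro R
    obtain ⟨k, hk, hk2⟩ := hh R
    exact ⟨_, hk, fun z h1 h2 => hk2 _ (by simpa using h1) h2⟩

theorem mem_refl {L : Set (ℤ × ℤ → V)} {h : ℤ × ℤ → V} (hh : h ∈ L) :
    (fun z : ℤ × ℤ => h (-z.1, z.2)) ∈ refl L := by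
  show (fun z : ℤ × ℤ => h (-(-z.1), z.2)) ∈ L
  simpa using hh

/-- **four limit flats which branch in both directions**, up to a reflection -/
theorem quad (hG : Geo Γ G K) {L : Set (ℤ × ℤ → V)} (hL : Sys G Γ L) {f : ℤ × ℤ → V}
    (hfL : f ∈ L) (hno : ¬ ∃ φ : Multiplicative (ℤ × ℤ) →* G, Injective φ) :
    ∃ F : Bool → Bool → ℤ × ℤ → V, Quad Γ F ∧ ((∀ s t, F s t ∈ L) ∨ ∀ s t, F s t ∈ refl L) := by
  by_cases H : ∀ N : ℕ, ∃ h k h' k', Qd L N h k h' k' ∧ ∃ n : ℕ, h (n, 0) ≠ h' (n, 0)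
  · obtain ⟨F, h1, h2⟩ := quad_pos hG hL H
    exact ⟨F, h2, Or.inl h1⟩
  · push Not at H
    obtain ⟨N₀, hN₀⟩ := H
    have H' : ∀ N : ℕ, ∃ h k h' k', Qd (refl L) N h k h' k' ∧ ∃ n : ℕ, h (n, 0) ≠ h' (n, 0) := by
      intro N
      obtain ⟨h, k, h', k', hq, i, hi⟩ := exists_qd hG hL hfL hno (max N N₀)
      have h1 := hN₀ h k h' k' (hq.mono (le_max_right _ _))
      have hq' := hq.mono (le_max_left N N₀)
      refine ⟨fun z => h (-z.1, z.2), fun z => k (-z.1, z.2), fun z => h' (-z.1, z.2),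
        fun z => k' (-z.1, z.2), ⟨mem_refl hq'.hh, mem_refl hq'.hk, mem_refl hq'.hh',
        mem_refl hq'.hk', fun i j => hq'.low (-i) j, fun i j => hq'.low' (-i) j,
        by simpa using hq'.ne, fun z z1 z2 => hq'.box (-z.1, z.2) (by simpa using z1) z2,
        fun z z1 z2 => hq'.box' (-z.1, z.2) (by simpa using z1) z2⟩, ?_⟩
      rcases le_total 0 i with h2 | h2
      · obtain ⟨n, rfl⟩ := Int.eq_ofNat_of_zero_le h2
        exact absurd (h1 n) hi
      · obtain ⟨n, hn⟩ := Int.eq_ofNat_of_zero_le (neg_nonneg.2 h2)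
        refine ⟨n, ?_⟩
        show h (-(n : ℤ), 0) ≠ h' (-(n : ℤ), 0)
        rwa [show -(n : ℤ) = i by omega]
    obtain ⟨F, h1, h2⟩ := quad_pos hG (refl_sys hL) H'
    exact ⟨F, h2, Or.inr h1⟩

end Pool.Agent.H348.GB
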