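import Pool.Agent.H348.GB.Sys

/-!
# Branching rows and the theorem of Morse and Hedlund with finite stabilisers
-/

set_option autoImplicit false

namespace Pool.Agent.H348.GB

open Function Set
open Pool.Agent.W5h69.CR

variable {V : Type*} {G : Type*} [Group G] [MulAction G V] {Γ : SimpleGraph V} {K : Set V}

/-- the branching rows of depth `N`: two flats of the family agree on the strip of height `N`
below the row and differ above it -/
def Amb (L : Set (ℤ × ℤ → V)) (N : ℕ) : Set (ℤ → V) :=
  {q | ∃ h ∈ L, ∃ k ∈ L, (∀ i : ℤ, h (i, 0) = q i) ∧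
    (∀ i j : ℤ, -N ≤ j → j ≤ 0 → h (i, j) = k (i, j)) ∧ h (0, 1) ≠ k (0, 1)}

/-- shift and translate -/
theorem amb_mv (hG : Geo Γ G K) {L : Set (ℤ × ℤ → V)} (hL : Sys G Γ L) {N : ℕ}
    {q : ℤ → V} (hq : q ∈ Amb L N) (g : G) (m : ℤ) : (fun i => g • q (i + m)) ∈ Amb L N := by
  obtain ⟨h, hh, k, hk, h0, h1, h2⟩ := hq
  refine ⟨_, hL.mv h hh g (m, 0), _, hL.mv k hk g (m, 0), fun i => ?_, fun i j q1 q2 => ?_, ?_⟩
  · simp only [Prod.mk_add_mk, add_zero, h0]
  · simp only [Prod.mk_add_mk, add_zero]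
    rw [h1 _ _ q1 q2]
  · intro h3
    simp only [Prod.mk_add_mk, zero_add, add_zero] at h3
    apply h2
    exact row_all hG (hL.flat h hh) (hL.flat k hk) (y := 0) (y' := 1) (by simp)
      (fun x => h1 x 0 (by omega) le_rfl) (x := m) (smul_left_cancel g h3) 0

/-- if a row is a row of a flat of the family then its vertices are at distance one -/
theorem amb_dist {L : Set (ℤ × ℤ → V)} (hL : Sys G Γ L) {N : ℕ} {q : ℤ → V} (hq : q ∈ Amb L N)
    (m : ℕ) : Γ.dist (q 0) (q m) = m := by
  obtain ⟨h, hh, k, hk, h0, h1, h2⟩ := hq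
  rw [← h0, ← h0, flat_dist (hL.flat h hh) (n := m) (by simp)]

/-- elements which fix the window of length `m` -/
def fixer (G : Type*) [Group G] [MulAction G V] (q : ℤ → V) (m : ℕ) : Subgroup G where
  carrier := {g | ∀ i : ℤ, 0 ≤ i → i ≤ m → g • q i = q i}
  mul_mem' := by
    intro a b ha hb i h1 h2
    rw [mul_smul, hb i h1 h2, ha i h1 h2]
  one_mem' := by
    intro i _ _
    exact one_smul _ _
  inv_mem' := by
    intro a ha i h1 h2
    rw [inv_smul_eq_iff, ha i h1 h2]

theorem mem_fixer {q : ℤ → V} {m : ℕ} {g : G} :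
    g ∈ fixer G q m ↔ ∀ i : ℤ, 0 ≤ i → i ≤ m → g • q i = q i := Iff.rfl

theorem fixer_finite (hG : Geo Γ G K) (q : ℤ → V) (m : ℕ) : Finite (fixer G q m) := by
  have := (hG.stab (q 0)).to_subtype
  exact Finite.of_injective (β := {g : G | g • q 0 = q 0})
    (fun g => ⟨g.1, g.2 0 le_rfl (by omega)⟩) fun a b hab => by
      have := congrArg Subtype.val hab
      exact Subtype.ext this

theorem fixer_card_le (hG : Geo Γ G K) {q q' : ℤ → V} {m : ℕ} {g : G}
    (hg : ∀ i : ℤ, 0 ≤ i → i ≤ m → g • q i = q' i) :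
    Nat.card (fixer G q m) ≤ Nat.card (fixer G q' m) := by
  have := fixer_finite hG q' m
  refine Nat.card_le_card_of_injective (fun x : fixer G q m => (⟨g * x.1 * g⁻¹, ?_⟩ :
    fixer G q' m)) ?_
  · intro i h1 h2
    rw [← hg i h1 h2, mul_smul, mul_smul, inv_smul_smul, x.2 i h1 h2]
  · intro a b hab
    have := congrArg Subtype.val hab
    simp only [mul_left_inj, mul_right_inj] at this
    exact Subtype.ext this

theorem inv_win {q q' : ℤ → V} {m : ℕ} {g : G}
    (hg : ∀ i : ℤ, 0 ≤ i → i ≤ m → g • q i = q' i) (i : ℤ) (h1 : 0 ≤ i) (h2 : i ≤ m) :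
    g⁻¹ • q' i = q i := by
  rw [← hg i h1 h2, inv_smul_smul]

theorem fixer_card (hG : Geo Γ G K) {q q' : ℤ → V} {m : ℕ} {g : G}
    (hg : ∀ i : ℤ, 0 ≤ i → i ≤ m → g • q i = q' i) :
    Nat.card (fixer G q m) = Nat.card (fixer G q' m) :=
  le_antisymm (fixer_card_le hG hg) (fixer_card_le hG (inv_win hg))

/-- a subgroup with the same binary logarithm of the order is the whole group -/
theorem eq_of_log {A B : Subgroup G} (hle : A ≤ B) [Finite B]
    (h : Nat.log 2 (Nat.card B) ≤ Nat.log 2 (Nat.card A)) : A = B := by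
  obtain ⟨c, hc⟩ := Subgroup.card_dvd_of_le hle
  have hfA : Finite A := Finite.of_injective _ (Subgroup.inclusion_injective hle)
  have h1 : 0 < Nat.card A := Nat.card_pos
  have h2 : 0 < Nat.card B := Nat.card_pos
  apply Subgroup.eq_of_le_of_card_ge hle
  rw [hc]
  have : c < 2 := by
    by_contra hcon
    have h3 : Nat.card A * 2 ≤ Nat.card B := by
      rw [hc]
      exact Nat.mul_le_mul_left _ (by omega)
    have h4 := Nat.log_mono_right (b := 2) h3
    rw [Nat.log_mul_base (by omega) (by omega)] at h4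
    omega
  interval_cases c
  · omega
  · omega

/-- the weight of a window -/
noncomputable def wt (G : Type*) [Group G] [MulAction G V] (s : ℕ) (q : ℤ → V) (m : ℕ) : ℕ :=
  s - Nat.log 2 (Nat.card (fixer G q m))

theorem log_lt (hG : Geo Γ G K) {s : ℕ}
    (hs : ∀ v : V, Nat.card (MulAction.stabilizer G v) < 2 ^ s) (q : ℤ → V) (m : ℕ) :
    Nat.log 2 (Nat.card (fixer G q m)) < s := by
  have hf := fixer_finite hG q m
  have h1 : 0 < Nat.card (fixer G q m) := Nat.card_pos
  have h2 : fixer G q m ≤ MulAction.stabilizer G (q 0) := fun g hg => hg 0 le_rfl (by omega)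
  have hfin : Finite (MulAction.stabilizer G (q 0)) := (hG.stab (q 0)).to_subtype
  have h3 : Nat.card (fixer G q m) ≤ Nat.card (MulAction.stabilizer G (q 0)) :=
    Nat.card_le_card_of_injective _ (Subgroup.inclusion_injective h2)
  rw [Nat.log_lt_iff_lt_pow (by omega) (by omega)]
  exact lt_of_le_of_lt h3 (hs _)

theorem fixer_anti (G : Type*) [Group G] [MulAction G V] (q : ℤ → V) {m n : ℕ} (h : m ≤ n) :
    fixer G q n ≤ fixer G q m :=
  fun _ hg i h1 h2 => hg i h1 (by omega)

/-- counting with weights -/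
theorem mass {α β : Type*} [Finite α] [Finite β] (π : α → β) (hs : Surjective π) (w : α → ℕ)
    (u : β → ℕ) (hu : ∀ a, u (π a) ≤ w a) (hw : ∀ a, 0 < w a)
    (h : ∑ᶠ a, w a ≤ ∑ᶠ b, u b) : Injective π ∧ ∀ a, w a = u (π a) := by
  classical
  obtain ⟨_⟩ := nonempty_fintype α
  obtain ⟨_⟩ := nonempty_fintype β
  rw [finsum_eq_sum_of_fintype, finsum_eq_sum_of_fintype] at h
  obtain ⟨σ, hσ⟩ := hs.hasRightInverse
  have hinj : Injective σ := hσ.injective
  have h1 : ∑ b, w (σ b) = ∑ a ∈ Finset.univ.image σ, w a := by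
    rw [Finset.sum_image (fun a _ b _ hab => hinj hab)]
  have h2 : ∑ b, u b ≤ ∑ b, w (σ b) := Finset.sum_le_sum fun b _ => by
    have := hu (σ b)
    rwa [hσ b] at this
  have h3 : Finset.univ.image σ = Finset.univ := by
    by_contra hne
    obtain ⟨a, ha⟩ : ∃ a, a ∉ Finset.univ.image σ := by
      by_contra hcon
      push Not at hcon
      exact hne (Finset.eq_univ_iff_forall.2 hcon)
    have := Finset.sum_lt_sum_of_subset (Finset.subset_univ (Finset.univ.image σ))
      (Finset.mem_univ a) ha (hw a) (fun _ _ _ => Nat.zero_le _)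
    omega
  have hsur : Surjective σ := by
    intro a
    have := Finset.mem_univ a
    rw [← h3, Finset.mem_image] at this
    obtain ⟨b, -, hb⟩ := this
    exact ⟨b, hb⟩
  refine ⟨?_, ?_⟩
  · intro a a' haa
    obtain ⟨b, rfl⟩ := hsur a
    obtain ⟨b', rfl⟩ := hsur a'
    rw [hσ b, hσ b'] at haa
    rw [haa]
  · intro a
    obtain ⟨b, rfl⟩ := hsur a
    rw [hσ b]
    have h4 : ∑ b, w (σ b) = ∑ b, u b := by
      rw [h3] at h1
      omega
    by_contra hne
    have h5 : u b < w (σ b) := by
      have := hu (σ b)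
      rw [hσ b] at this
      omega
    have := Finset.sum_lt_sum (s := Finset.univ) (f := u) (g := fun b => w (σ b))
      (fun b _ => by
        have := hu (σ b)
        rwa [hσ b] at this) ⟨b, Finset.mem_univ b, h5⟩
    omega

/-- windows of branching rows up to the group -/
def win (G : Type*) [Group G] [MulAction G V] (A : Set (ℤ → V)) (k : ℕ) : Setoid A where
  r := fun q q' => ∃ g : G, ∀ i : ℤ, 0 ≤ i → i ≤ k → g • q.1 i = q'.1 i
  iseqv := {
    refl := fun q => ⟨1, fun i _ _ => one_smul _ _⟩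
    symm := by
      rintro q q' ⟨g, hg⟩
      exact ⟨g⁻¹, inv_win hg⟩
    trans := by
      rintro q q' q'' ⟨g, hg⟩ ⟨g', hg'⟩
      exact ⟨g' * g, fun i h1 h2 => by rw [mul_smul, hg i h1 h2, hg' i h1 h2]⟩ }

theorem win_mono {A : Set (ℤ → V)} {k l : ℕ} (h : k ≤ l) {q q' : A}
    (hq : (win G A l).r q q') : (win G A k).r q q' := by
  obtain ⟨g, hg⟩ := hq
  exact ⟨g, fun i h1 h2 => hg i h1 (by omega)⟩

/-- the weight of a class of windows -/
noncomputable def cwt (hG : Geo Γ G K) (A : Set (ℤ → V)) (s k : ℕ) : Quotient (win G A k) → ℕ :=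
  Quotient.lift (fun q => wt G s q.1 k) (by
    rintro q q' ⟨g, hg⟩
    show s - _ = s - _
    rw [fixer_card hG hg])

theorem cwt_mk (hG : Geo Γ G K) (A : Set (ℤ → V)) (s k : ℕ) (q : A) :
    cwt hG A s k (Quotient.mk _ q) = wt G s q.1 k := rfl

/-- invariant families of rows -/
structure Rows (G : Type*) [Group G] [MulAction G V] (A : Set (ℤ → V)) : Prop where
  mv : ∀ q ∈ A, ∀ (g : G) (m : ℤ), (fun i => g • q (i + m)) ∈ A

theorem Rows.sh {A : Set (ℤ → V)} (hA : Rows G A) {q : ℤ → V} (hq : q ∈ A) (m : ℤ) :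
    (fun i => q (i + m)) ∈ A := by
  simpa using hA.mv q hq 1 m

/-- if the windows of length `k` and `k + 1` have the same mass, they determine the rows -/
theorem det_of_mass (hG : Geo Γ G K) {A : Set (ℤ → V)} (hA : Rows G A) {s : ℕ}
    (hs : ∀ v : V, Nat.card (MulAction.stabilizer G v) < 2 ^ s) (k : ℕ)
    [Finite (Quotient (win G A (k + 1)))] [Finite (Quotient (win G A k))]
    (hmass : ∑ᶠ a, cwt hG A s (k + 1) a ≤ ∑ᶠ b, cwt hG A s k b)
    {q q' : ℤ → V} (hq : q ∈ A) (hq' : q' ∈ A) {g : G}
    (hg : ∀ i : ℤ, 0 ≤ i → i ≤ k → g • q i = q' i) : ∀ i, g • q i = q' i := by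
  classical
  have hpos : ∀ a, 0 < cwt hG A s (k + 1) a := by
    intro a
    induction a using Quotient.inductionOn with
    | h a =>
      rw [cwt_mk]
      have := log_lt hG hs a.1 (k + 1)
      unfold wt
      omega
  -- restriction to the first window
  let π : Quotient (win G A (k + 1)) → Quotient (win G A k) :=
    Quotient.map' id (fun a b h => win_mono (Nat.le_add_right k 1) h)
  have hπ := mass π (by
      intro a
      induction a using Quotient.inductionOn with
      | h a => exact ⟨Quotient.mk _ a, rfl⟩) (cwt hG A s (k + 1)) (cwt hG A s k) (by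
      intro a
      induction a using Quotient.inductionOn with
      | h a =>
        show wt G s a.1 k ≤ wt G s a.1 (k + 1)
        unfold wt
        have hf := fixer_finite hG a.1 k
        have := Nat.log_mono_right (b := 2) (Nat.card_le_card_of_injective _
          (Subgroup.inclusion_injective (fixer_anti G a.1 (Nat.le_add_right k 1))))
        omega) hpos hmass
  -- restriction to the last window
  let ρ : Quotient (win G A (k + 1)) → Quotient (win G A k) :=
    Quotient.map' (fun a => ⟨_, hA.sh a.2 1⟩) (fun a b h => by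
      obtain ⟨g, hg⟩ := h
      exact ⟨g, fun i h1 h2 => hg (i + 1) (by omega) (by push_cast; omega)⟩)
  have hanti : ∀ q : ℤ → V, fixer G q (k + 1) ≤ fixer G (fun i => q (i + 1)) k := by
    intro q g hg i h1 h2
    exact hg (i + 1) (by omega) (by push_cast; omega)
  have hρ := mass ρ (by
      intro a
      induction a using Quotient.inductionOn with
      | h a =>
        refine ⟨Quotient.mk _ ⟨_, hA.sh a.2 (-1)⟩, ?_⟩
        apply Quotient.sound
        exact ⟨1, fun i _ _ => by simp⟩) (cwt hG A s (k + 1)) (cwt hG A s k) (by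
      intro a
      induction a using Quotient.inductionOn with
      | h a =>
        show wt G s (fun i => a.1 (i + 1)) k ≤ wt G s a.1 (k + 1)
        unfold wt
        have hf := fixer_finite hG (fun i => a.1 (i + 1)) k
        have := Nat.log_mono_right (b := 2) (Nat.card_le_card_of_injective _
          (Subgroup.inclusion_injective (hanti a.1)))
        omega) hpos hmass
  have E1 : ∀ {q : ℤ → V}, q ∈ A → fixer G q (k + 1) = fixer G q k := by
    intro q hq
    have h1 : wt G s q (k + 1) = wt G s q k := hπ.2 (Quotient.mk _ ⟨q, hq⟩)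
    have hf := fixer_finite hG q k
    apply eq_of_log (fixer_anti G q (Nat.le_add_right k 1))
    have h2 := log_lt hG hs q (k + 1)
    have h3 := log_lt hG hs q k
    unfold wt at h1
    omega
  have E2 : ∀ {q : ℤ → V}, q ∈ A → fixer G q (k + 1) = fixer G (fun i => q (i + 1)) k := by
    intro q hq
    have h1 : wt G s q (k + 1) = wt G s (fun i => q (i + 1)) k := hρ.2 (Quotient.mk _ ⟨q, hq⟩)
    have hf := fixer_finite hG (fun i => q (i + 1)) k
    apply eq_of_log (hanti q)
    have h2 := log_lt hG hs q (k + 1)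
    have h3 := log_lt hG hs (fun i => q (i + 1)) k
    unfold wt at h1
    omega
  have R1 : ∀ {q q' : ℤ → V}, q ∈ A → q' ∈ A → (∀ i : ℤ, 0 ≤ i → i ≤ k → q i = q' i) →
      q (k + 1) = q' (k + 1) := by
    intro q q' hq hq' h
    have e : π (Quotient.mk _ ⟨q, hq⟩) = π (Quotient.mk _ ⟨q', hq'⟩) := by
      apply Quotient.sound
      exact ⟨1, fun i h1 h2 => by simpa using h i h1 h2⟩
    obtain ⟨g, hg⟩ := Quotient.exact (hπ.1 e)
    have hg1 : ∀ i : ℤ, 0 ≤ i → i ≤ ((k + 1 : ℕ) : ℤ) → g • q i = q' i := hg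
    have hm : g ∈ fixer G q k := fun i h1 h2 => by
      rw [hg1 i h1 (by push_cast; omega), h i h1 h2]
    rw [← E1 hq] at hm
    have h3 := hm (k + 1) (by omega) (by push_cast; omega)
    rw [hg1 (k + 1) (by omega) (by push_cast; omega)] at h3
    exact h3.symm
  have R2 : ∀ {q q' : ℤ → V}, q ∈ A → q' ∈ A → (∀ i : ℤ, 0 ≤ i → i ≤ k → q i = q' i) →
      q (-1) = q' (-1) := by
    intro q q' hq hq' h
    have e : ρ (Quotient.mk _ ⟨_, hA.sh hq (-1)⟩) = ρ (Quotient.mk _ ⟨_, hA.sh hq' (-1)⟩) := by
      apply Quotient.sound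
      exact ⟨1, fun i h1 h2 => by simpa using h i h1 h2⟩
    obtain ⟨g, hg⟩ := Quotient.exact (hρ.1 e)
    have hg1 : ∀ i : ℤ, 0 ≤ i → i ≤ ((k + 1 : ℕ) : ℤ) → g • q (i + -1) = q' (i + -1) := hg
    have hm : g ∈ fixer G (fun i => (fun i => q (i + -1)) (i + 1)) k := fun i h1 h2 => by
      have := hg1 (i + 1) (by omega) (by push_cast; omega)
      simp only [add_neg_cancel_right] at this ⊢
      rw [this, h i h1 h2]
    rw [← E2 (hA.sh hq (-1))] at hm
    have h3 := hm 0 le_rfl (by omega)
    simp only [zero_add] at h3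
    have h4 := hg1 0 le_rfl (by omega)
    rw [zero_add] at h4
    rw [h4] at h3
    exact h3.symm
  have key : ∀ n : ℕ, ∀ {q q' : ℤ → V}, q ∈ A → q' ∈ A →
      (∀ i : ℤ, 0 ≤ i → i ≤ k → q i = q' i) → ∀ i : ℤ, -n ≤ i → i ≤ k + n → q i = q' i := by
    intro n
    induction n with
    | zero => intro q q' hq hq' h i h1 h2; exact h i (by simpa using h1) (by simpa using h2)
    | succ n ih =>
      intro q q' hq hq' h i h1 h2
      have a1 := R1 hq hq' h
      have a2 := R2 hq hq' h
      rcases (show i = -(n + 1 : ℕ) ∨ i = k + (n + 1 : ℕ) ∨ (-(n : ℤ) ≤ i ∧ i ≤ k + n) by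
        push_cast at h1 h2 ⊢; omega) with h3 | h3 | h3
      · have := ih (hA.sh hq (-1)) (hA.sh hq' (-1)) (fun j h4 h5 => by
          rcases (show j = 0 ∨ 1 ≤ j by omega) with rfl | h6
          · simpa using a2
          · exact h (j + -1) (by omega) (by omega)) (-n) le_rfl (by omega)
        rw [h3]
        push_cast
        rw [show -((n : ℤ) + 1) = -n + -1 by ring]
        exact this
      · have := ih (hA.sh hq 1) (hA.sh hq' 1) (fun j h4 h5 => by
          rcases (show j = k ∨ j + 1 ≤ k by omega) with rfl | h6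
          · exact a1
          · exact h (j + 1) (by omega) (by omega)) (k + n) (by omega) le_rfl
        rw [h3]
        push_cast
        rw [show (k : ℤ) + (n + 1) = k + n + 1 by ring]
        exact this
      · exact ih hq hq' h i h3.1 h3.2
  intro i
  have hgq : (fun i => g • q i) ∈ A := by simpa using hA.mv q hq g 0
  exact key i.natAbs hgq hq' hg i (by omega) (by omega)

/-- **Morse–Hedlund with finite stabilisers**: if there are few windows then there are finitely many
rows up to the group -/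
theorem finite_rows (hG : Geo Γ G K) {A : Set (ℤ → V)} (hA : Rows G A) (hne : A.Nonempty) {s : ℕ}
    (hs : ∀ v : V, Nat.card (MulAction.stabilizer G v) < 2 ^ s) {m n : ℕ} (hmn : s * m ≤ n)
    (hfew : ¬ ∃ p : Fin (m + 1) → ℤ → V, (∀ a, p a ∈ A) ∧ ∀ a b, a ≠ b → ∀ g : G,
      ∃ i : ℤ, 0 ≤ i ∧ i ≤ n ∧ g • p a i ≠ p b i) :
    ∃ (M : ℕ) (c : A → Fin M), ∀ q q' : A, c q = c q' → ∃ g : G, ∀ i, g • q.1 i = q'.1 i := by
  classical
  have hno : ¬ ∃ f : Fin (m + 1) → Quotient (win G A n), Injective f := by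
    rintro ⟨f, hf⟩
    apply hfew
    refine ⟨fun a => (f a).out.1, fun a => (f a).out.2, fun a b hab g => ?_⟩
    by_contra hcon
    push Not at hcon
    apply hab
    apply hf
    rw [← Quotient.out_eq (f a), ← Quotient.out_eq (f b)]
    exact Quotient.sound ⟨g, fun i h1 h2 => hcon i h1 h2⟩
  have hfin : Finite (Quotient (win G A n)) := by
    by_contra hinf
    rw [not_finite_iff_infinite] at hinf
    exact hno ⟨fun i => Infinite.natEmbedding _ i.1, fun i j h => by
      have := (Infinite.natEmbedding (Quotient (win G A n))).injective h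
      exact Fin.ext this⟩
  have hcn : Nat.card (Quotient (win G A n)) ≤ m := by
    by_contra hlt
    apply hno
    have := Fintype.ofFinite (Quotient (win G A n))
    rw [Nat.card_eq_fintype_card] at hlt
    obtain ⟨f⟩ : Nonempty (Fin (m + 1) ↪ Quotient (win G A n)) :=
      Function.Embedding.nonempty_of_card_le (by rw [Fintype.card_fin]; omega)
    exact ⟨f, f.injective⟩
  have hfink : ∀ k : ℕ, k ≤ n → Finite (Quotient (win G A k)) := fun k hk => by
    refine Finite.of_surjective (β := Quotient (win G A k))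
      (Quotient.map' id (fun a b h => win_mono hk h)) ?_
    intro a
    induction a using Quotient.inductionOn with
    | h a => exact ⟨Quotient.mk _ a, rfl⟩
  -- the mass
  let μ : ℕ → ℕ := fun k => ∑ᶠ a, cwt hG A s k a
  have hpos : ∀ k a, 0 < cwt hG A s k a ∧ cwt hG A s k a ≤ s := by
    intro k a
    induction a using Quotient.inductionOn with
    | h a =>
      rw [cwt_mk]
      have := log_lt hG hs a.1 k
      unfold wt
      omega
  obtain ⟨k, hk, hcard⟩ : ∃ k < n, μ (k + 1) ≤ μ k := by
    by_contra hcon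
    push Not at hcon
    have : ∀ k : ℕ, k ≤ n → k + 1 ≤ μ k := by
      intro k
      induction k with
      | zero =>
        intro _
        have h0 := hfink 0 (by omega)
        obtain ⟨_⟩ := nonempty_fintype (Quotient (win G A 0))
        show 0 + 1 ≤ ∑ᶠ a, cwt hG A s 0 a
        rw [finsum_eq_sum_of_fintype]
        obtain ⟨q, hq⟩ := hne
        have h1 := Finset.single_le_sum (f := cwt hG A s 0)
          (s := Finset.univ) (fun _ _ => Nat.zero_le _)
          (Finset.mem_univ (Quotient.mk _ ⟨q, hq⟩))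
        have h2 := (hpos 0 (Quotient.mk _ ⟨q, hq⟩)).1
        omega
      | succ k ih =>
        intro hk
        have h1 := ih (by omega)
        have h2 := hcon k (by omega)
        omega
    have h3 := this n le_rfl
    have h3' : n + 1 ≤ ∑ᶠ a, cwt hG A s n a := h3
    obtain ⟨_⟩ := nonempty_fintype (Quotient (win G A n))
    rw [finsum_eq_sum_of_fintype] at h3'
    have h4 := Finset.sum_le_card_nsmul Finset.univ
      (cwt hG A s n) s (fun a _ => (hpos n a).2)
    rw [Finset.card_univ, ← Nat.card_eq_fintype_card, smul_eq_mul] at h4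
    have h6 : Nat.card (Quotient (win G A n)) * s ≤ s * m := by
      rw [mul_comm]
      exact Nat.mul_le_mul_left _ hcn
    have h7 := h3'.trans h4
    omega
  have hf1 := hfink (k + 1) (by omega)
  have hf0 := hfink k (by omega)
  obtain ⟨M, ⟨e⟩⟩ := Finite.exists_equiv_fin (Quotient (win G A k))
  refine ⟨M, fun q => e (Quotient.mk _ q), fun q q' hqq => ?_⟩
  obtain ⟨g, hg⟩ := Quotient.exact (e.injective hqq)
  exact ⟨g, det_of_mass hG hA hs k hcard q.2 q'.2 hg⟩

end Pool.Agent.H348.GB
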