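import Pool.Agent.H240.GB.Def
import Pool.Agent.H240.CG.Bfun

/-!
# One perturbation step for profiles
-/

set_option autoImplicit false

open Set Filter Topology MeasureTheory
open scoped ContDiff Real
open Pool.Agent.Y262.EG Pool.Agent.Y262.EX Pool.Agent.H240.SG Pool.Agent.H240.CG
open Pool.Agent.H240.GB

noncomputable section

namespace Pool.Agent.H348.GB

/-! ### second derivatives -/

lemma cd1 {f : ℝ → ℝ} (hf : ContDiff ℝ ∞ f) : ContDiff ℝ ∞ (deriv f) :=
  (contDiff_infty_iff_deriv.1 hf).2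

lemma cdiff {f : ℝ → ℝ} (hf : ContDiff ℝ ∞ f) : Differentiable ℝ f :=
  (contDiff_infty_iff_deriv.1 hf).1

lemma dd_cont {f : ℝ → ℝ} (hf : ContDiff ℝ ∞ f) : Continuous (deriv (deriv f)) :=
  (cd1 (cd1 hf)).continuous

lemma dd_add {f g : ℝ → ℝ} (hf : ContDiff ℝ ∞ f) (hg : ContDiff ℝ ∞ g) (x : ℝ) :
    deriv (deriv fun x => f x + g x) x = deriv (deriv f) x + deriv (deriv g) x := by
  have h1 : (deriv fun x => f x + g x) = fun x => deriv f x + deriv g x :=
    funext fun x => deriv_fun_add (cdiff hf x) (cdiff hg x)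
  rw [h1]
  exact deriv_fun_add (cdiff (cd1 hf) x) (cdiff (cd1 hg) x)

lemma dd_mul {f : ℝ → ℝ} (hf : ContDiff ℝ ∞ f) (c x : ℝ) :
    deriv (deriv fun x => c * f x) x = c * deriv (deriv f) x := by
  have h1 : (deriv fun x => c * f x) = fun x => c * deriv f x :=
    funext fun x => deriv_const_mul c (cdiff hf x)
  rw [h1]
  exact deriv_const_mul c (cdiff (cd1 hf) x)

lemma dd_congr {f g : ℝ → ℝ} {x : ℝ} (h : f =ᶠ[𝓝 x] g) :
    deriv (deriv f) x = deriv (deriv g) x := h.deriv.deriv_eq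

lemma dd_const {f : ℝ → ℝ} {c x : ℝ} (h : f =ᶠ[𝓝 x] fun _ => c) : deriv (deriv f) x = 0 := by
  rw [dd_congr h]
  simp

/-- bounded derivatives -/
lemma bdd {f : ℝ → ℝ} (hf : ContDiff ℝ ∞ f) {x0 L c : ℝ} (hc : ∀ x, L ≤ |x - x0| → f x = c)
    (N : ℕ) : ∃ K : ℝ, 0 ≤ K ∧ ∀ n ≤ N, ∀ x, |iteratedDeriv n f x| ≤ K := by
  have hone : ∀ n : ℕ, ∃ K : ℝ, 0 ≤ K ∧ ∀ x, |iteratedDeriv n f x| ≤ K := by
    intro n
    have hcn : Continuous (iteratedDeriv n f) :=
      hf.continuous_iteratedDeriv n (by exact_mod_cast le_top)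
    obtain ⟨K, hK⟩ := (isCompact_Icc (a := x0 - L) (b := x0 + L)).exists_bound_of_continuousOn
      hcn.continuousOn
    refine ⟨max K |c|, (abs_nonneg c).trans (le_max_right _ _), fun x => ?_⟩
    by_cases hx : L < |x - x0|
    · have hO : IsOpen {x : ℝ | L < |x - x0|} := isOpen_lt continuous_const (by fun_prop)
      have h1 : f =ᶠ[𝓝 x] fun _ => c := by
        filter_upwards [hO.mem_nhds hx] with y hy
        exact hc y (le_of_lt hy)
      have h2 : iteratedDeriv n f x = iteratedDeriv n (fun _ => c) x :=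
        h1.iteratedDeriv_eq n
      rw [h2, iteratedDeriv_const]
      split_ifs
      · exact le_max_right _ _
      · rw [abs_zero]
        exact (abs_nonneg c).trans (le_max_right _ _)
    · have h1 := hK x (by
        have := abs_le.1 (not_lt.1 hx)
        exact ⟨by linarith [this.1], by linarith [this.2]⟩)
      exact h1.trans (le_max_left _ _)
  choose K hK0 hK using hone
  refine ⟨∑ n ∈ Finset.range (N + 1), K n, Finset.sum_nonneg fun n _ => hK0 n, fun n hn x => ?_⟩
  exact (hK n x).trans (Finset.single_le_sum (fun m _ => hK0 m)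
    (Finset.mem_range.2 (Nat.lt_succ_of_le hn)))

/-! ### positivity -/

lemma pos_right {u : ℝ → ℝ} (hu : ContDiff ℝ ∞ u) {x0 a R : ℝ} (ha : 0 < a)
    (hz : ∀ x, |x - x0| ≤ a → u x = 0)
    (hp : ∀ x, a < |x - x0| → |x - x0| < R → 0 < deriv (deriv u) x) :
    ∀ x, x0 + a < x → x < x0 + R → 0 < u x := by
  intro x hx1 hx2
  have hd0 : deriv u (x0 + a) = 0 := by
    have h1 : EqOn (deriv u) (fun _ => 0) (Metric.ball x0 a) := by
      intro y hy
      rw [Metric.mem_ball, Real.dist_eq] at hy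
      have h2 : u =ᶠ[𝓝 y] fun _ => 0 := by
        have hO : IsOpen {x : ℝ | |x - x0| < a} := isOpen_lt (by fun_prop) continuous_const
        filter_upwards [hO.mem_nhds hy] with t ht
        exact hz t (le_of_lt ht)
      rw [h2.deriv_eq]
      simp
    have h2 := h1.closure (cd1 hu).continuous continuous_const
    rw [closure_ball x0 ha.ne'] at h2
    exact h2 (by
      rw [Metric.mem_closedBall, Real.dist_eq, add_sub_cancel_left, abs_of_pos ha])
  have hint : ∀ t ∈ Ioo (x0 + a) (x0 + R), 0 < deriv (deriv u) t := by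
    intro t ht
    have h3 : |t - x0| = t - x0 := abs_of_pos (by linarith [ht.1])
    exact hp t (by rw [h3]; linarith [ht.1]) (by rw [h3]; linarith [ht.2])
  have h1 : StrictMonoOn (deriv u) (Ico (x0 + a) (x0 + R)) := by
    apply strictMonoOn_of_deriv_pos (convex_Ico _ _) (cd1 hu).continuous.continuousOn
    intro t ht
    rw [interior_Ico] at ht
    exact hint t ht
  have h2 : ∀ t ∈ Ioo (x0 + a) (x0 + R), 0 < deriv u t := by
    intro t ht
    rw [← hd0]
    exact h1 ⟨le_rfl, by linarith [ht.1, ht.2]⟩ ⟨ht.1.le, ht.2⟩ ht.1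
  have h3 : StrictMonoOn u (Ico (x0 + a) (x0 + R)) := by
    apply strictMonoOn_of_deriv_pos (convex_Ico _ _) hu.continuous.continuousOn
    intro t ht
    rw [interior_Ico] at ht
    exact h2 t ht
  have h4 : u (x0 + a) = 0 := hz _ (by rw [add_sub_cancel_left, abs_of_pos ha])
  rw [← h4]
  exact h3 ⟨le_rfl, by linarith⟩ ⟨hx1.le, hx2⟩ hx1

lemma dd_refl {u : ℝ → ℝ} (x0 x : ℝ) :
    deriv (deriv fun t => u (2 * x0 - t)) x = deriv (deriv u) (2 * x0 - x) := by
  have h1 : (deriv fun t => u (2 * x0 - t)) = fun t => - deriv u (2 * x0 - t) := by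
    funext t
    exact deriv_comp_const_sub u (2 * x0) t
  rw [h1, deriv.fun_neg, deriv_comp_const_sub (deriv u) (2 * x0) x, neg_neg]

lemma pos_both {u : ℝ → ℝ} (hu : ContDiff ℝ ∞ u) {x0 a R : ℝ} (ha : 0 < a)
    (hz : ∀ x, |x - x0| ≤ a → u x = 0)
    (hp : ∀ x, a < |x - x0| → |x - x0| < R → 0 < deriv (deriv u) x) :
    ∀ x, a < |x - x0| → |x - x0| < R → 0 < u x := by
  intro x hx1 hx2
  rcases lt_abs.1 hx1 with h | h
  · have h3 := (abs_lt.1 hx2).2
    exact pos_right hu ha hz hp x (by linarith) (by linarith)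
  · have h3 := (abs_lt.1 hx2).1
    have e : ∀ t : ℝ, |2 * x0 - t - x0| = |t - x0| := by
      intro t
      rw [show 2 * x0 - t - x0 = -(t - x0) by ring, abs_neg]
    have h4 := pos_right (u := fun t => u (2 * x0 - t)) (x0 := x0) (a := a) (R := R)
      (hu.comp (contDiff_const.sub contDiff_id)) ha
      (fun t ht => hz _ (by rw [e]; exact ht))
      (fun t h5 h6 => by
        rw [dd_refl]
        exact hp _ (by rw [e]; exact h5) (by rw [e]; exact h6)) (2 * x0 - x) (by linarith)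
      (by linarith)
    have h7 : 2 * x0 - (2 * x0 - x) = x := by ring
    simpa only [h7] using h4

/-- the second derivative vanishes on the closed interval -/
lemma dd_zero {u : ℝ → ℝ} (hu : ContDiff ℝ ∞ u) {x0 a : ℝ} (ha : 0 < a)
    (hz : ∀ x, |x - x0| ≤ a → u x = 0) (x : ℝ) (hx : |x - x0| ≤ a) : deriv (deriv u) x = 0 := by
  have h1 : EqOn (deriv (deriv u)) (fun _ => 0) (Metric.ball x0 a) := by
    intro y hy
    rw [Metric.mem_ball, Real.dist_eq] at hy
    have hO : IsOpen {x : ℝ | |x - x0| < a} := isOpen_lt (by fun_prop) continuous_const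
    refine dd_const (c := 0) ?_
    filter_upwards [hO.mem_nhds hy] with t ht
    exact hz t (le_of_lt ht)
  have h2 := h1.closure (dd_cont hu) continuous_const
  rw [closure_ball x0 ha.ne'] at h2
  exact h2 (by rw [Metric.mem_closedBall, Real.dist_eq]; exact hx)

lemma closed_ann (x0 a b : ℝ) : IsClosed {x : ℝ | a ≤ |x - x0| ∧ |x - x0| ≤ b} := by
  have h1 : IsClosed {x : ℝ | a ≤ |x - x0|} := isClosed_le continuous_const (by fun_prop)
  have h2 : IsClosed {x : ℝ | |x - x0| ≤ b} := isClosed_le (by fun_prop) continuous_const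
  exact h1.inter h2

/-- a smooth cutoff -/
lemma cut_ex (x0 a b : ℝ) (ha : 0 < a) (hab : a < b) : ∃ χ : ℝ → ℝ, ContDiff ℝ ∞ χ ∧
    (∀ x, 0 ≤ χ x) ∧ (∀ x, χ x ≤ 1) ∧ (∀ x, |x - x0| ≤ a → χ x = 1) ∧
    ∀ x, b ≤ |x - x0| → χ x = 0 := by
  let f : ContDiffBump x0 := ⟨a, b, ha, hab⟩
  refine ⟨f, f.contDiff, fun x => f.nonneg, fun x => f.le_one, fun x hx => ?_, fun x hx => ?_⟩
  · exact f.one_of_mem_closedBall (by rw [Metric.mem_closedBall, Real.dist_eq]; exact hx)
  · exact f.zero_of_le_dist (by rw [Real.dist_eq]; exact hx)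

theorem stStep : StStep := by
  intro F hF ξ c r hT r' ρ N hr0 hr' hρ hρ1
  have hL := L0p
  have hrL := hT.rL
  have hrp := hT.rp
  obtain ⟨B, -, hB, -, hBz, hBc, hBp, -⟩ := bfun_ex (L0 / 2) r' L0 hr0
  obtain ⟨χ, hχ, hχ0, hχ1, hχn, hχf⟩ := cut_ex (L0 / 2) (3 / 16 * L0) (L0 / 4) (by positivity)
    (by linarith)
  -- the function `T`
  have hTs : ContDiff ℝ ∞ fun x => F x + ξ x := hF.sm.add hT.sm
  set T : ℝ → ℝ := fun x => F x + ξ x with hTdef
  have hTdd : ∀ x, deriv (deriv T) x = deriv (deriv F) x + deriv (deriv ξ) x := fun x =>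
    dd_add hF.sm hT.sm x
  have hT2 : ∀ x, r < |x - L0 / 2| → |x - L0 / 2| < 4 / 5 * L0 → 0 < deriv (deriv T) x := by
    intro x h1 h2
    rw [hTdd]
    exact hT.pos x h1 h2
  have hT0 : ∀ x, |x - L0 / 2| ≤ r → deriv (deriv T) x = 0 := dd_zero hTs hrp hT.flat
  have hTnn : ∀ x, |x - L0 / 2| < 4 / 5 * L0 → 0 ≤ deriv (deriv T) x := by
    intro x hx
    rcases le_or_gt |x - L0 / 2| r with h | h
    · rw [hT0 x h]
    · exact (hT2 x h hx).le
  have hTpos : ∀ x, r < |x - L0 / 2| → |x - L0 / 2| < 4 / 5 * L0 → 0 < T x :=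
    pos_both hTs hrp hT.flat hT2
  -- the function `B`
  have hBpos : ∀ x, r' < |x - L0 / 2| → 0 < B x := by
    intro x hx
    refine pos_both hB (x0 := L0 / 2) (R := |x - L0 / 2| + 1) hr0 hBz ?_ x hx (by linarith)
    intro y hy _
    refine lt_of_le_of_ne (hBc y) fun h => ?_
    exact absurd (hBp y h.symm) (not_le.2 hy)
  have hBnn : ∀ x, 0 ≤ B x := by
    intro x
    rcases le_or_gt |x - L0 / 2| r' with h | h
    · rw [hBz x h]
    · exact (hBpos x h).le
  -- the direction `b`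
  set b : ℝ → ℝ := fun x => 1 + χ x * (B x - 1) with hb
  have hbs : ContDiff ℝ ∞ b := contDiff_const.add (hχ.mul (hB.sub contDiff_const))
  have hbn : ∀ x, |x - L0 / 2| ≤ 3 / 16 * L0 → b x = B x := by
    intro x hx
    simp only [hb, hχn x hx]
    ring
  have hbf : ∀ x, L0 / 4 ≤ |x - L0 / 2| → b x = 1 := by
    intro x hx
    simp only [hb, hχf x hx]
    ring
  have hbnn : ∀ x, 0 ≤ b x := by
    intro x
    have h1 := mul_nonneg (hχ0 x) (hBnn x)
    have h2 := hχ1 x
    simp only [hb]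
    nlinarith
  -- constants
  obtain ⟨m0, hm0, hm⟩ : ∃ m0 : ℝ, 0 < m0 ∧ ∀ x, L0 / 8 ≤ |x - L0 / 2| → |x - L0 / 2| ≤ L0 / 2 →
      m0 ≤ deriv (deriv T) x := by
    have hK : IsCompact {x : ℝ | L0 / 8 ≤ |x - L0 / 2| ∧ |x - L0 / 2| ≤ L0 / 2} := by
      refine (isCompact_Icc (a := 0) (b := L0)).of_isClosed_subset (closed_ann _ _ _)
        fun x hx => ?_
      have := abs_le.1 hx.2
      exact ⟨by linarith [this.1], by linarith [this.2]⟩
    have hne : {x : ℝ | L0 / 8 ≤ |x - L0 / 2| ∧ |x - L0 / 2| ≤ L0 / 2}.Nonempty := by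
      refine ⟨L0, ?_⟩
      have : |L0 - L0 / 2| = L0 / 2 := by
        rw [abs_of_pos (by linarith)]
        ring
      show L0 / 8 ≤ |L0 - L0 / 2| ∧ |L0 - L0 / 2| ≤ L0 / 2
      rw [this]
      constructor <;> linarith
    obtain ⟨y, hy, hmin⟩ := hK.exists_isMinOn hne (dd_cont hTs).continuousOn
    refine ⟨deriv (deriv T) y, hT2 y (by linarith [hy.1]) (by linarith [hy.2]), ?_⟩
    intro x h1 h2
    exact hmin ⟨h1, h2⟩
  obtain ⟨K1, hK1, k1⟩ := bdd hbs (x0 := L0 / 2) (L := L0 / 4) (c := 1) hbf (max N 2)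
  set δ : ℝ := min (ρ / (2 * (K1 + 1))) (m0 / (4 * (K1 + 1))) with hδ
  have hδ0 : 0 < δ := by positivity
  have hδ1 : δ * (K1 + 1) ≤ ρ / 2 := by
    have h1 : δ ≤ ρ / (2 * (K1 + 1)) := min_le_left _ _
    calc δ * (K1 + 1) ≤ ρ / (2 * (K1 + 1)) * (K1 + 1) :=
          mul_le_mul_of_nonneg_right h1 (by positivity)
      _ = ρ / 2 := by field_simp
  have hδ2 : δ * (K1 + 1) ≤ m0 / 4 := by
    have h1 : δ ≤ m0 / (4 * (K1 + 1)) := min_le_right _ _
    calc δ * (K1 + 1) ≤ m0 / (4 * (K1 + 1)) * (K1 + 1) :=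
          mul_le_mul_of_nonneg_right h1 (by positivity)
      _ = m0 / 4 := by field_simp
  set ξ1 : ℝ → ℝ := fun x => ξ x + δ * b x with hξ1
  have hξ1s : ContDiff ℝ ∞ ξ1 := hT.sm.add (contDiff_const.mul hbs)
  set T1 : ℝ → ℝ := fun x => F x + ξ1 x with hT1
  have hT1s : ContDiff ℝ ∞ T1 := hF.sm.add hξ1s
  have hT1e : ∀ x, T1 x = T x + δ * b x := by
    intro x
    simp only [hT1, hξ1, hTdef]
    ring
  have hT1z : ∀ x, |x - L0 / 2| ≤ r' → T1 x = 0 := by
    intro x hx
    have h1 : T x = 0 := hT.flat x (by linarith)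
    rw [hT1e, h1, hbn x (by linarith), hBz x hx]
    ring
  have hT1p : ∀ x, r' < |x - L0 / 2| → |x - L0 / 2| < 4 / 5 * L0 → 0 < T1 x := by
    intro x h1 h2
    rw [hT1e]
    rcases le_or_gt |x - L0 / 2| r with h | h
    · have h3 : T x = 0 := hT.flat x h
      rw [h3, hbn x (by linarith), zero_add]
      exact mul_pos hδ0 (hBpos x h1)
    · have h3 := hTpos x h h2
      have h4 := mul_nonneg hδ0.le (hbnn x)
      linarith
  -- the direction `h`
  set h : ℝ → ℝ := fun x => 1 + χ x * (T1 x - 1) with hh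
  have hhs : ContDiff ℝ ∞ h := contDiff_const.add (hχ.mul (hT1s.sub contDiff_const))
  have hhn : ∀ x, |x - L0 / 2| ≤ 3 / 16 * L0 → h x = T1 x := by
    intro x hx
    simp only [hh, hχn x hx]
    ring
  have hhf : ∀ x, L0 / 4 ≤ |x - L0 / 2| → h x = 1 := by
    intro x hx
    simp only [hh, hχf x hx]
    ring
  have hhp : ∀ x, r' < |x - L0 / 2| → 0 < h x := by
    intro x hx
    rcases le_or_gt (L0 / 4) |x - L0 / 2| with h1 | h1
    · rw [hhf x h1]
      exact one_pos
    · have h2 := hT1p x hx (by linarith)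
      have h3 := hχ0 x
      have h4 := hχ1 x
      simp only [hh]
      rcases eq_or_lt_of_le h3 with h5 | h5
      · rw [← h5]
        norm_num
      · nlinarith [mul_pos h5 h2]
  obtain ⟨K2, hK2, k2⟩ := bdd hhs (x0 := L0 / 2) (L := L0 / 4) (c := 1) hhf (max N 2)
  set s0 : ℝ := min (ρ / (2 * (K2 + 1))) (m0 / (4 * (K2 + 1))) with hs0
  have hs00 : 0 < s0 := by positivity
  -- the constant `C0`
  obtain ⟨C0, hC0, hdom⟩ : ∃ C0 : ℝ, 0 < C0 ∧ ∀ x, |x - L0 / 2| ≤ 3 / 4 * L0 →
      2 * T1 x ≤ C0 * h x := by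
    have hK : IsCompact {x : ℝ | 3 / 16 * L0 ≤ |x - L0 / 2| ∧ |x - L0 / 2| ≤ 3 / 4 * L0} := by
      refine (isCompact_Icc (a := -L0) (b := 2 * L0)).of_isClosed_subset (closed_ann _ _ _)
        fun x hx => ?_
      have := abs_le.1 hx.2
      exact ⟨by linarith [this.1], by linarith [this.2]⟩
    have hne : {x : ℝ | 3 / 16 * L0 ≤ |x - L0 / 2| ∧ |x - L0 / 2| ≤ 3 / 4 * L0}.Nonempty := by
      refine ⟨L0, ?_⟩
      have : |L0 - L0 / 2| = L0 / 2 := by
        rw [abs_of_pos (by linarith)]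
        ring
      show 3 / 16 * L0 ≤ |L0 - L0 / 2| ∧ |L0 - L0 / 2| ≤ 3 / 4 * L0
      rw [this]
      constructor <;> linarith
    obtain ⟨y, hy, hmin⟩ := hK.exists_isMinOn hne hhs.continuous.continuousOn
    obtain ⟨K, hK'⟩ := hK.exists_bound_of_continuousOn hT1s.continuous.continuousOn
    have hy0 : 0 < h y := hhp y (by linarith [hy.1])
    refine ⟨max 2 (2 * K / h y), by positivity, fun x hx => ?_⟩
    rcases le_or_gt |x - L0 / 2| (3 / 16 * L0) with h1 | h1
    · rw [hhn x h1]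
      have h2 : 0 ≤ T1 x := by
        rcases le_or_gt |x - L0 / 2| r' with h3 | h3
        · rw [hT1z x h3]
        · exact (hT1p x h3 (by linarith)).le
      exact mul_le_mul_of_nonneg_right (le_max_left _ _) h2
    · have h2 : h y ≤ h x := hmin ⟨h1.le, hx⟩
      have h3 := hK' x ⟨h1.le, hx⟩
      have h4 : T1 x ≤ K := (le_abs_self _).trans h3
      have h5 : 0 ≤ max 2 (2 * K / h y) := by positivity
      calc 2 * T1 x ≤ 2 * K := by linarith
        _ = 2 * K / h y * h y := by field_simp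
        _ ≤ max 2 (2 * K / h y) * h y := mul_le_mul_of_nonneg_right (le_max_right _ _) hy0.le
        _ ≤ max 2 (2 * K / h y) * h x := mul_le_mul_of_nonneg_left h2 h5
  refine ⟨ξ1, c + δ, h, s0, C0, hs00, hC0, ⟨hhs, fun x hx => hhf x (by linarith), fun x hx => ?_,
    hhp, hdom⟩, fun s hs1 hs2 => ?_⟩
  · rw [hhn x (by linarith), hT1z x hx]
  have hsK1 : s * (K2 + 1) ≤ ρ / 2 := by
    have h1 : s ≤ ρ / (2 * (K2 + 1)) := hs2.le.trans (min_le_left _ _)
    calc s * (K2 + 1) ≤ ρ / (2 * (K2 + 1)) * (K2 + 1) :=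
          mul_le_mul_of_nonneg_right h1 (by positivity)
      _ = ρ / 2 := by field_simp
  have hsK2 : s * (K2 + 1) ≤ m0 / 4 := by
    have h1 : s ≤ m0 / (4 * (K2 + 1)) := hs2.le.trans (min_le_right _ _)
    calc s * (K2 + 1) ≤ m0 / (4 * (K2 + 1)) * (K2 + 1) :=
          mul_le_mul_of_nonneg_right h1 (by positivity)
      _ = m0 / 4 := by field_simp
  have hsh : ContDiff ℝ ∞ fun x => s * h x := contDiff_const.mul hhs
  have hδb : ContDiff ℝ ∞ fun x => δ * b x := contDiff_const.mul hbs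
  -- the second derivative
  have hdd : ∀ x, deriv (deriv F) x + deriv (deriv fun x => ξ1 x + s * h x) x =
      deriv (deriv T) x + δ * deriv (deriv b) x + s * deriv (deriv h) x := by
    intro x
    rw [dd_add hξ1s hsh, dd_mul hhs, hξ1, dd_add hT.sm hδb, dd_mul hbs, hTdd]
    ring
  -- near the centre
  have hnear : ∀ x, |x - L0 / 2| < 3 / 16 * L0 →
      deriv (deriv F) x + deriv (deriv fun x => ξ1 x + s * h x) x =
      (1 + s) * (deriv (deriv T) x + δ * deriv (deriv B) x) := by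
    intro x hx
    have hO : IsOpen {x : ℝ | |x - L0 / 2| < 3 / 16 * L0} :=
      isOpen_lt (by fun_prop) continuous_const
    have h1 : deriv (deriv b) x = deriv (deriv B) x := by
      apply dd_congr
      filter_upwards [hO.mem_nhds hx] with t ht
      exact hbn t (le_of_lt ht)
    have h2 : deriv (deriv h) x = deriv (deriv T1) x := by
      apply dd_congr
      filter_upwards [hO.mem_nhds hx] with t ht
      exact hhn t (le_of_lt ht)
    have h3 : deriv (deriv T1) x = deriv (deriv T) x + δ * deriv (deriv b) x := by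
      have h4 : T1 = fun x => T x + δ * b x := funext hT1e
      rw [h4, dd_add hTs hδb, dd_mul hbs]
    rw [hdd, h2, h3, h1]
    ring
  have hb2 : ∀ x, |deriv (deriv b) x| ≤ K1 := by
    intro x
    have h1 := k1 2 (le_max_right _ _) x
    rwa [iteratedDeriv_succ, iteratedDeriv_one] at h1
  have hh2 : ∀ x, |deriv (deriv h) x| ≤ K2 := by
    intro x
    have h1 := k2 2 (le_max_right _ _) x
    rwa [iteratedDeriv_succ, iteratedDeriv_one] at h1
  refine ⟨⟨hr0, by linarith, hξ1s.add hsh, fun x hx => ?_, fun x hx => ?_, fun x h1 h2 => ?_⟩,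
    ⟨?_, fun j hj x => ?_, fun x hx => ?_⟩⟩
  · show ξ x + δ * b x + s * h x = c + δ + s
    rw [hT.far x hx, hbf x (by linarith), hhf x (by linarith)]
    ring
  · show F x + (ξ1 x + s * h x) = 0
    rw [← add_assoc, hhn x (by linarith)]
    have h3 : F x + ξ1 x = 0 := hT1z x hx
    rw [h3, hT1z x hx]
    ring
  · rcases lt_or_ge |x - L0 / 2| (3 / 16 * L0) with h3 | h3
    · rw [hnear x h3]
      have h4 := hTnn x h2
      have h5 : 0 < deriv (deriv B) x := by
        refine lt_of_le_of_ne (hBc x) fun h => ?_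
        exact absurd (hBp x h.symm) (not_le.2 h1)
      have h6 := mul_pos hδ0 h5
      exact mul_pos (by linarith) (by linarith)
    · rw [hdd]
      rcases le_or_gt |x - L0 / 2| (L0 / 2) with h4 | h4
      · have h5 := hm x (by linarith) h4
        have h6 : -(m0 / 4) ≤ δ * deriv (deriv b) x := by
          have h7 := (abs_le.1 (hb2 x)).1
          nlinarith
        have h7 : -(m0 / 4) ≤ s * deriv (deriv h) x := by
          have h8 := (abs_le.1 (hh2 x)).1
          nlinarith
        linarith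
      · have hO : IsOpen {x : ℝ | L0 / 2 < |x - L0 / 2|} :=
          isOpen_lt continuous_const (by fun_prop)
        have h5 : deriv (deriv b) x = 0 := by
          refine dd_const (c := 1) ?_
          filter_upwards [hO.mem_nhds h4] with t ht
          have ht' : L0 / 2 < |t - L0 / 2| := ht
          exact hbf t (by linarith)
        have h6 : deriv (deriv h) x = 0 := by
          refine dd_const (c := 1) ?_
          filter_upwards [hO.mem_nhds h4] with t ht
          have ht' : L0 / 2 < |t - L0 / 2| := ht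
          exact hhf t (by linarith)
        rw [h5, h6, mul_zero, mul_zero, add_zero, add_zero]
        exact hT2 x (by linarith) h2
  · have h1 : c + δ + s - c = δ + s := by ring
    rw [h1, abs_of_nonneg (by linarith)]
    nlinarith
  · have h1 : (fun x => ξ1 x + s * h x - ξ x) = fun x => δ * b x + s * h x := by
      funext x
      simp only [hξ1]
      ring
    have n1 : ContDiffAt ℝ j (fun x => δ * b x) x :=
      (hδb.of_le (by exact_mod_cast le_top)).contDiffAt
    have n2 : ContDiffAt ℝ j (fun x => s * h x) x :=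
      (hsh.of_le (by exact_mod_cast le_top)).contDiffAt
    rw [h1, iteratedDeriv_fun_add n1 n2, iteratedDeriv_const_mul_field,
      iteratedDeriv_const_mul_field]
    have h2 := k1 j (hj.trans (le_max_left _ _)) x
    have h3 := k2 j (hj.trans (le_max_left _ _)) x
    refine (abs_add_le _ _).trans ?_
    rw [abs_mul, abs_mul, abs_of_pos hδ0, abs_of_nonneg hs1]
    have h4 := mul_le_mul_of_nonneg_left h2 hδ0.le
    have h5 := mul_le_mul_of_nonneg_left h3 hs1
    nlinarith
  · rw [hnear x (by linarith), ← hTdd]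
    have h1 := hTnn x (by linarith)
    have h2 := mul_nonneg hδ0.le (hBc x)
    have h3 : deriv (deriv T) x ≤ (1 + s) * (deriv (deriv T) x + δ * deriv (deriv B) x) := by
      nlinarith
    nlinarith

end Pool.Agent.H348.GB
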