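import Pool.Graph.R_pool_sql_team_seeded_9f66d723.W5h69.CR.Gen

/-!
# Closed invariant families of flats in median graphs of arbitrary dimension
-/

set_option autoImplicit false

namespace Pool.Agent.H348.GB

open Function Set
open Pool.Agent.W5h69.CR

/-- cluster points of sequences of functions with values in finite sets -/
theorem cluster {ι W : Type*} [Countable ι] (F : ℕ → ι → W) (B : ι → Set W)
    (hB : ∀ i, (B i).Finite) (hF : ∀ n i, F n i ∈ B i) :
    ∃ f : ι → W, ∀ S : Set ι, S.Finite → ∀ N : ℕ, ∃ n, N ≤ n ∧ ∀ i ∈ S, F n i = f i := by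
  let _ : TopologicalSpace W := ⊥
  have _ : DiscreteTopology W := ⟨rfl⟩
  have hc : IsCompact (Set.pi Set.univ B) := isCompact_univ_pi fun i => (hB i).isCompact
  obtain ⟨f, -, φ, hφ, ht⟩ := hc.tendsto_subseq (x := F) fun n => by
    rw [Set.mem_univ_pi]; exact hF n
  refine ⟨f, fun S hS N => ?_⟩
  have h1 : ∀ i, ∀ᶠ n in Filter.atTop, F (φ n) i = f i := by
    intro i
    have := (tendsto_pi_nhds.1 ht) i
    rw [nhds_discrete, Filter.tendsto_pure] at this
    exact this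
  have h2 : ∀ᶠ n in Filter.atTop, ∀ i ∈ S, F (φ n) i = f i :=
    (Filter.eventually_all_finite hS).2 fun i _ => h1 i
  obtain ⟨n, hn1, hn2⟩ := (h2.and (Filter.eventually_ge_atTop N)).exists
  exact ⟨φ n, hn2.trans (hφ.id_le n), hn1⟩

theorem win_finite (R : ℕ) : {z : ℤ × ℤ | z.1.natAbs ≤ R ∧ z.2.natAbs ≤ R}.Finite := by
  refine ((Set.finite_Icc (-(R : ℤ)) R).prod (Set.finite_Icc (-(R : ℤ)) R)).subset ?_
  rintro z ⟨h1, h2⟩
  exact ⟨⟨by omega, by omega⟩, ⟨by omega, by omega⟩⟩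

variable {V : Type*} {G : Type*} [Group G] [MulAction G V] {Γ : SimpleGraph V} {K : Set V}

theorem flat_mv (hG : Geo Γ G K) {f : ℤ × ℤ → V} (hf : IsFlat Γ f) (g : G) (b : ℤ × ℤ) :
    IsFlat Γ (fun z => g • f (z + b)) := fun z w => by
  rw [hG.dist, hf]
  simp

theorem flat_dist {f : ℤ × ℤ → V} (hf : IsFlat Γ f) {z w : ℤ × ℤ} {n : ℕ}
    (h : |z.1 - w.1| + |z.2 - w.2| = n) : Γ.dist (f z) (f w) = n := by
  have := hf z w
  rw [h] at this
  exact_mod_cast this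

theorem ballK (hG : Geo Γ G K) (n : ℕ) : {w | ∃ u ∈ K, Γ.dist u w ≤ n}.Finite := by
  refine (hG.fin.biUnion fun u _ => hG.ball n u).subset fun w hw => ?_
  obtain ⟨u, hu, h⟩ := hw
  rw [Set.mem_iUnion₂]
  exact ⟨u, hu, h⟩

theorem flat_memball (hG : Geo Γ G K) {f : ℤ × ℤ → V} (hf : IsFlat Γ f) {g : G}
    (hg : g • f 0 ∈ K) (z : ℤ × ℤ) :
    g • f z ∈ {w | ∃ u ∈ K, Γ.dist u w ≤ z.1.natAbs + z.2.natAbs} := by
  refine ⟨_, hg, ?_⟩
  rw [hG.dist]
  have := hf 0 z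
  simp only [Prod.fst_zero, Prod.snd_zero, zero_sub, abs_neg, Int.abs_eq_natAbs] at this
  omega

/-- closed families of flats which are invariant under `G` and under translations -/
structure Sys (G : Type*) [Group G] [MulAction G V] (Γ : SimpleGraph V)
    (L : Set (ℤ × ℤ → V)) : Prop where
  flat : ∀ h ∈ L, IsFlat Γ h
  mv : ∀ h ∈ L, ∀ (g : G) (b : ℤ × ℤ), (fun z => g • h (z + b)) ∈ L
  clo : ∀ h : ℤ × ℤ → V,
    (∀ R : ℕ, ∃ k ∈ L, ∀ z : ℤ × ℤ, z.1.natAbs ≤ R → z.2.natAbs ≤ R → h z = k z) → h ∈ L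

/-- the limit flats of `f` -/
def Orb (G : Type*) [Group G] [MulAction G V] (f : ℤ × ℤ → V) : Set (ℤ × ℤ → V) :=
  {h | ∀ R : ℕ, ∃ (g : G) (b : ℤ × ℤ), ∀ z : ℤ × ℤ, z.1.natAbs ≤ R → z.2.natAbs ≤ R →
    h z = g • f (z + b)}

theorem Orb.self (f : ℤ × ℤ → V) : f ∈ Orb G f := fun _ => ⟨1, 0, fun z _ _ => by simp⟩

theorem Orb.sys (hG : Geo Γ G K) {f : ℤ × ℤ → V} (hf : IsFlat Γ f) : Sys G Γ (Orb G f) where
  flat := by
    intro h hh z w
    obtain ⟨g, b, hg⟩ := hh (z.1.natAbs + z.2.natAbs + w.1.natAbs + w.2.natAbs)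
    rw [hg z (by omega) (by omega), hg w (by omega) (by omega)]
    exact flat_mv hG hf g b z w
  mv := by
    intro h hh g b R
    obtain ⟨g', b', hg⟩ := hh (R + b.1.natAbs + b.2.natAbs)
    refine ⟨g * g', b + b', fun z h1 h2 => ?_⟩
    have e1 : (z + b).1.natAbs ≤ R + b.1.natAbs + b.2.natAbs := by
      simp only [Prod.fst_add]
      omega
    have e2 : (z + b).2.natAbs ≤ R + b.1.natAbs + b.2.natAbs := by
      simp only [Prod.snd_add]
      omega
    simp only []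
    rw [hg _ e1 e2, mul_smul, add_assoc]
  clo := by
    intro h hh R
    obtain ⟨k, hk, hk2⟩ := hh R
    obtain ⟨g, b, hg⟩ := hk R
    exact ⟨g, b, fun z h1 h2 => by rw [hk2 z h1 h2, hg z h1 h2]⟩

/-- compactness for pairs of flats with the same base point -/
theorem Sys.limit (hG : Geo Γ G K) {L : Set (ℤ × ℤ → V)} (hL : Sys G Γ L) (h k : ℕ → ℤ × ℤ → V)
    (hh : ∀ n, h n ∈ L) (hk : ∀ n, k n ∈ L) (h0 : ∀ n, h n 0 = k n 0) :
    ∃ h' ∈ L, ∃ k' ∈ L, ∀ R N : ℕ, ∃ n, N ≤ n ∧ ∃ g : G, ∀ z : ℤ × ℤ, z.1.natAbs ≤ R → z.2.natAbs ≤ R →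
      h' z = g • h n z ∧ k' z = g • k n z := by
  choose g hg using fun n => hG.cov (h n 0)
  obtain ⟨f, hf⟩ := cluster (fun n z => (g n • h n z, g n • k n z))
    (fun z : ℤ × ℤ => {w | ∃ u ∈ K, Γ.dist u w ≤ z.1.natAbs + z.2.natAbs} ×ˢ
      {w | ∃ u ∈ K, Γ.dist u w ≤ z.1.natAbs + z.2.natAbs})
    (fun z => (ballK hG _).prod (ballK hG _)) (fun n z =>
      ⟨flat_memball hG (hL.flat _ (hh n)) (hg n) z,
        flat_memball hG (hL.flat _ (hk n)) (by rw [← h0 n]; exact hg n) z⟩)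
  have key : ∀ R N : ℕ, ∃ n, N ≤ n ∧ ∀ z : ℤ × ℤ, z.1.natAbs ≤ R → z.2.natAbs ≤ R →
      (f z).1 = g n • h n z ∧ (f z).2 = g n • k n z := by
    intro R N
    obtain ⟨n, hn, hn2⟩ := hf _ (win_finite R) N
    refine ⟨n, hn, fun z h1 h2 => ?_⟩
    rw [← hn2 z ⟨h1, h2⟩]
    exact ⟨rfl, rfl⟩
  refine ⟨fun z => (f z).1, ?_, fun z => (f z).2, ?_, ?_⟩
  · apply hL.clo
    intro R
    obtain ⟨n, _, hn⟩ := key R 0
    exact ⟨_, hL.mv _ (hh n) (g n) 0, fun z h1 h2 => by simpa using (hn z h1 h2).1⟩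
  · apply hL.clo
    intro R
    obtain ⟨n, _, hn⟩ := key R 0
    exact ⟨_, hL.mv _ (hk n) (g n) 0, fun z h1 h2 => by simpa using (hn z h1 h2).2⟩
  · intro R N
    obtain ⟨n, hn, hn2⟩ := key R N
    exact ⟨n, hn, g n, hn2⟩

/-- agreement along a whole row spreads to the adjacent row if the flats meet there -/
theorem row_all (hG : Geo Γ G K) {h k : ℤ × ℤ → V} (hh : IsFlat Γ h) (hk : IsFlat Γ k) {y y' : ℤ}
    (hy : |y - y'| = 1) (h0 : ∀ i, h (i, y) = k (i, y)) {x : ℤ} (h1 : h (x, y') = k (x, y'))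
    (i : ℤ) : h (i, y') = k (i, y') :=
  rowprop hG.med hh hk (x0 := min x i) (x1 := max x i) hy (fun i _ _ => h0 i) (x := x)
    (by omega) (by omega) h1 i (by omega) (by omega)

/-- without `ℤ²` there are two flats of the family which agree exactly below a row -/
theorem up_pair (hG : Geo Γ G K) {L : Set (ℤ × ℤ → V)} (hL : Sys G Γ L) {f : ℤ × ℤ → V}
    (hfL : f ∈ L) (hno : ¬ ∃ φ : Multiplicative (ℤ × ℤ) →* G, Injective φ) :
    ∃ h ∈ L, ∃ k ∈ L, (∀ i j : ℤ, j ≤ 0 → h (i, j) = k (i, j)) ∧ h (0, 1) ≠ k (0, 1) := by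
  have hf := hL.flat f hfL
  have main : ∀ n : ℕ, ∃ h ∈ L, ∃ k ∈ L, (∀ i j : ℤ, -n ≤ i → i ≤ n → -n ≤ j → j ≤ 0 →
      h (i, j) = k (i, j)) ∧ h (0, 1) ≠ k (0, 1) := by
    intro n
    obtain ⟨N, hN⟩ := same_pattern' hG hf (2 * n + 1)
    obtain ⟨D, hD⟩ := zfin' hG N
    obtain ⟨x1, x2, h1, h2, h3, h4, g, hg⟩ := hN 0 0
    have f1 : IsFlat Γ (fun z => g • f z) := by simpa using flat_mv hG hf g 0
    rcases ext_up hG.med f1 (hf.add (x2 - x1, 0)) (a := x1) (b := x1 + (2 * n + 1 : ℕ)) (c := 0)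
      (d := (2 * n + 1 : ℕ)) (by omega) (by omega) (fun x y q1 q2 q3 q4 => by
        simp only [Prod.mk_add_mk, add_zero]
        exact hg x y q1 q2 q3 (by omega)) with h5 | ⟨d, h5, h6, h7⟩
    · exfalso
      apply hno
      refine hD f hf g x1 x2 0 h2 (by omega) h4 fun t q1 _ => ⟨?_, ?_⟩
      · have := h5 x1 t le_rfl (by omega) q1
        simp only [Prod.mk_add_mk, add_zero] at this
        rw [this]
        congr 2
        omega
      · have := h5 (x1 + 1) t (by omega) (by push_cast; omega) q1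
        simp only [Prod.mk_add_mk, add_zero] at this
        rw [this]
        congr 2
        omega
    · refine ⟨_, hL.mv f hfL g (x1 + n, d), _, hL.mv f hfL 1 (x2 + n, d), ?_, ?_⟩
      · intro i j q1 q2 q3 q4
        have := h6 (x1 + n + i) (d + j) (by omega) (by push_cast; omega) (by push_cast at h5; omega)
          (by omega)
        simp only [Prod.mk_add_mk, add_zero, one_smul] at this ⊢
        rw [show i + (x1 + n) = x1 + n + i by ring, show j + d = d + j by ring, this]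
        congr 2
        ring
      · have := h7 (x1 + n) (by omega) (by push_cast; omega)
        simp only [Prod.mk_add_mk, add_zero, one_smul, zero_add] at this ⊢
        rw [show (1 : ℤ) + d = d + 1 by ring]
        intro h8
        apply this
        rw [h8]
        congr 2
        ring
  choose h hh k hk h1 h2 using main
  obtain ⟨h', hh', k', hk', hlim⟩ := hL.limit hG h k hh hk (fun n => by
    have := h1 n 0 0 (by omega) (by omega) (by omega) le_rfl
    exact this)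
  refine ⟨h', hh', k', hk', fun i j hj => ?_, fun he => ?_⟩
  · obtain ⟨n, hn, g, hg⟩ := hlim (i.natAbs + j.natAbs) (i.natAbs + j.natAbs)
    obtain ⟨e1, e2⟩ := hg (i, j) (by simp) (by simp)
    rw [e1, e2, h1 n i j (by omega) (by omega) (by omega) hj]
  · obtain ⟨n, hn, g, hg⟩ := hlim 1 1
    obtain ⟨e1, e2⟩ := hg (0, 1) (by simp) (by simp)
    rw [e1, e2] at he
    exact h2 n (smul_left_cancel g he)

end Pool.Agent.H348.GB
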