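import Pool.Agent.H705.GB.Stm

/-!
# The first step of the level
-/

set_option autoImplicit false

namespace Pool.Agent.H348.GBst

open Pool.Agent.H705.GB
open Pool.Agent.H705.TR (PrimeIn)

theorem T_ST2 : P_ST2 := by
  intro v N hN
  refine ⟨?_, by omega⟩
  rw [fl, dif_neg (by omega)]
  rcases Nat.even_or_odd N with he | ho
  · have he2 : N % 2 = 0 := Nat.even_iff.1 he
    have h1 : par v N % 2 = 0 := by
      unfold par
      omega
    have h2 : ¬ PrimeIn N (par v N) := by
      intro h
      exact h 2 Nat.prime_two (by omega) (Nat.dvd_of_mod_eq_zero h1)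
    have h3 : G N N 2 (par v N) (par v (2 * N - N)) = 2 := by
      unfold G
      rw [if_pos (by norm_num), if_neg h2]
      exact Nat.gcd_eq_right (Nat.dvd_of_mod_eq_zero h1)
    rw [h3]
    have h4 : N - 2 - max 1 2 + (2 + 1) = N - (N + 1) % 2 := by
      rw [max_eq_right (by norm_num)]
      omega
    rw [h4]
  · have ho2 : N % 2 = 1 := Nat.odd_iff.1 ho
    have h1 : par v N % 2 = 1 := by
      unfold par
      omega
    have h3 : G N N 2 (par v N) (par v (2 * N - N)) = 1 := by
      unfold G
      rw [if_pos (by norm_num)]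
      split_ifs with h
      · rfl
      · exact (Nat.coprime_comm.1 (Nat.coprime_two_left.2 (Nat.odd_iff.2 h1)))
    rw [h3]
    have h4 : N - 2 - max 1 1 + (2 + 1) = N - (N + 1) % 2 := by
      rw [max_self]
      omega
    rw [h4]

end Pool.Agent.H348.GBst
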