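import Mathlib

/-!
# Half-spaces, and common stabilisers of half-spaces along two flats
-/

set_option autoImplicit false

namespace Pool.Agent.H348.GB

variable {V : Type*}

/-- the half-space of the vertices which are closer to `b` than to `a` -/
def HS (Γ : SimpleGraph V) (a b : V) : Set V := {v | Γ.dist v b < Γ.dist v a}

/-- the common stabiliser of the half-spaces above the rows `-N, …, 0` of `h` and above the row `0`
of `k` -/
def tripod (G : Type*) [Group G] [MulAction G V] (Γ : SimpleGraph V) (h k : ℤ × ℤ → V) (N : ℕ) :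
    Subgroup G where
  carrier := {g | (∀ j : ℤ, -N ≤ j → j ≤ 0 → ∀ v, v ∈ HS Γ (h (0, j)) (h (0, j + 1)) ↔
    g • v ∈ HS Γ (h (0, j)) (h (0, j + 1))) ∧
    ∀ v, v ∈ HS Γ (k (0, 0)) (k (0, 1)) ↔ g • v ∈ HS Γ (k (0, 0)) (k (0, 1))}
  mul_mem' := by
    rintro a b ⟨ha1, ha2⟩ ⟨hb1, hb2⟩
    refine ⟨fun j h1 h2 v => ?_, fun v => ?_⟩
    · rw [mul_smul, ← ha1 j h1 h2, ← hb1 j h1 h2]
    · rw [mul_smul, ← ha2, ← hb2]
  one_mem' := by
    refine ⟨fun j _ _ v => ?_, fun v => ?_⟩ <;> rw [one_smul]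
  inv_mem' := by
    rintro a ⟨h1, h2⟩
    refine ⟨fun j j1 j2 v => ?_, fun v => ?_⟩
    · rw [h1 j j1 j2 (a⁻¹ • v), smul_inv_smul]
    · rw [h2 (a⁻¹ • v), smul_inv_smul]

/-- virtually cyclic groups: some cyclic subgroup has finite index -/
def VirtuallyCyclic (H : Type*) [Group H] : Prop :=
  ∃ c : H, (Subgroup.zpowers c).FiniteIndex

end Pool.Agent.H348.GB
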