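import Pool.Agent.H348.GB.Close
import Pool.Agent.H348.GB.TriDefs
import Pool.Graph.R_pool_sql_team_seeded_9f66d723.W5h69.CR.Cube

/-!
# Facing triples of walls with virtually cyclic stabilisers
-/

set_option autoImplicit false

namespace Pool.Agent.H348.GB

open Function Set
open Pool.Agent.W5h69.CR

variable {V : Type*} {G : Type*} [Group G] [MulAction G V] {Γ : SimpleGraph V} {K : Set V}

/-- Two squares with a common edge `x u`, and a third square at `x` spanned by their other edges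
at `x`, give a cube. -/
theorem cube_of (h : IsMedian Γ) {x y y' u v v' z : V} (xy : Γ.Adj x y) (xy' : Γ.Adj x y')
    (xu : Γ.Adj x u) (uv : Γ.Adj u v) (uv' : Γ.Adj u v') (yv : Γ.Adj y v) (yv' : Γ.Adj y' v')
    (hyy : y ≠ y') (hyu : y ≠ u) (hyu' : y' ≠ u) (hxv : x ≠ v) (hxv' : x ≠ v')
    (yz : Γ.Adj y z) (yz' : Γ.Adj y' z) (hz : z ≠ x) : HasCube Γ := by
  have n1 : v ≠ v' := by
    rintro rfl
    exact hxv (k23 h xy xy' xu yv.symm yv'.symm uv.symm hyy hyu' hyu)
  have n2 : z ≠ v := by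
    rintro rfl
    exact hxv (k23 h xy xy' xu yv.symm yz'.symm uv.symm hyy hyu' hyu)
  have n3 : z ≠ v' := by
    rintro rfl
    exact hxv' (k23 h xy xy' xu yz.symm yv'.symm uv'.symm hyy hyu' hyu)
  have e1 := d2 h uv uv' n1
  have e2 := d2 h yz yv n2
  have e3 := d2 h yz' yv' n3
  obtain ⟨m, ⟨f1, f2, f3⟩, -⟩ := h.2 z v v'
  have c1 : Γ.dist m v = Γ.dist v m := SimpleGraph.dist_comm
  have zm : Γ.Adj z m := SimpleGraph.dist_eq_one_iff_adj.1 (by omega)
  have vm : Γ.Adj v m := SimpleGraph.dist_eq_one_iff_adj.1 (by omega)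
  have mv' : Γ.Adj m v' := SimpleGraph.dist_eq_one_iff_adj.1 (by omega)
  have n4 : m ≠ y := by
    rintro rfl
    exact hxv' (k23 h xy xy' xu mv'.symm yv'.symm uv'.symm hyy hyu' hyu)
  have n5 : m ≠ y' := by
    rintro rfl
    exact hxv (k23 h xy xy' xu yv.symm vm uv.symm hyy hyu' hyu)
  have n6 : m ≠ u := by
    rintro rfl
    exact hz (k23 h yz.symm yz'.symm zm xy xy' xu hyy hyu' hyu)
  have n7 : m ≠ x := by
    rintro rfl
    exact no_tri h xy yz zm.symm
  have m1 : y ≠ x := xy.ne'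
  have m2 : y' ≠ x := xy'.ne'
  have m3 : u ≠ x := xu.ne'
  have m4 : u ≠ v := uv.ne
  have m5 : u ≠ v' := uv'.ne
  have m6 : y ≠ v := yv.ne
  have m7 : y' ≠ v' := yv'.ne
  have m8 : y ≠ z := yz.ne
  have m9 : y' ≠ z := yz'.ne
  have l1 : z ≠ m := zm.ne
  have l2 : v ≠ m := vm.ne
  have l3 : m ≠ v' := mv'.ne
  have l4 : y ≠ v' := by
    rintro rfl
    exact no_tri h xu uv' xy
  have l5 : y' ≠ v := by
    rintro rfl
    exact no_tri h xu uv xy'
  have l6 : u ≠ z := by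
    rintro rfl
    exact no_tri h xy yz xu
  let c : Bool × Bool × Bool → V := fun t =>
    if t.2.2 then
      if t.1 then (if t.2.1 then m else v)
      else (if t.2.1 then v' else u)
    else
      if t.1 then (if t.2.1 then z else y)
      else (if t.2.1 then y' else x)
  refine ⟨c, ?_, ?_, ?_, ?_⟩
  · rintro ⟨i, j, k⟩ ⟨i', j', k'⟩ e
    cases i <;> cases j <;> cases k <;> cases i' <;> cases j' <;> cases k' <;>
      simp only [c, Bool.false_eq_true, if_true, if_false] at e <;>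
      first
        | rfl
        | exact absurd e n1 | exact absurd e n1.symm | exact absurd e n2 | exact absurd e n2.symm
        | exact absurd e n3 | exact absurd e n3.symm | exact absurd e n4 | exact absurd e n4.symm
        | exact absurd e n5 | exact absurd e n5.symm | exact absurd e n6 | exact absurd e n6.symm
        | exact absurd e n7 | exact absurd e n7.symm | exact absurd e m1 | exact absurd e m1.symm
        | exact absurd e m2 | exact absurd e m2.symm | exact absurd e m3 | exact absurd e m3.symm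
        | exact absurd e m4 | exact absurd e m4.symm | exact absurd e m5 | exact absurd e m5.symm
        | exact absurd e m6 | exact absurd e m6.symm | exact absurd e m7 | exact absurd e m7.symm
        | exact absurd e m8 | exact absurd e m8.symm | exact absurd e m9 | exact absurd e m9.symm
        | exact absurd e l1 | exact absurd e l1.symm | exact absurd e l2 | exact absurd e l2.symm
        | exact absurd e l3 | exact absurd e l3.symm | exact absurd e l4 | exact absurd e l4.symm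
        | exact absurd e l5 | exact absurd e l5.symm | exact absurd e l6 | exact absurd e l6.symm
        | exact absurd e hyy | exact absurd e hyy.symm | exact absurd e hyu
        | exact absurd e hyu.symm | exact absurd e hyu' | exact absurd e hyu'.symm
        | exact absurd e hxv | exact absurd e hxv.symm | exact absurd e hxv'
        | exact absurd e hxv'.symm | exact absurd e hz | exact absurd e hz.symm
  · intro j k
    cases j <;> cases k <;> simp only [c, Bool.false_eq_true, if_true, if_false]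
    · exact xy
    · exact uv
    · exact yz'
    · exact mv'.symm
  · intro i k
    cases i <;> cases k <;> simp only [c, Bool.false_eq_true, if_true, if_false]
    · exact xy'
    · exact uv'
    · exact yz
    · exact vm
  · intro i j
    cases i <;> cases j <;> simp only [c, Bool.false_eq_true, if_true, if_false]
    · exact xu
    · exact yv'
    · exact yv
    · exact zm

theorem hs_smul (hG : Geo Γ G K) (g : G) (a b v : V) :
    g • v ∈ HS Γ (g • a) (g • b) ↔ v ∈ HS Γ a b := by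
  show Γ.dist (g • v) (g • b) < Γ.dist (g • v) (g • a) ↔ _
  rw [hG.dist, hG.dist]
  rfl

theorem not_hs (h : IsMedian Γ) {a b v : V} (ab : Γ.Adj a b) : v ∉ HS Γ a b ↔ v ∈ HS Γ b a := by
  have := step h ab v
  unfold HS
  simp only [Set.mem_ofPred_eq]
  omega

/-- An isometry does not move two disjoint half-spaces into themselves, the first one strictly. -/
theorem no_common (hG : Geo Γ G K) {a b a' b' : V} (ab : Γ.Adj a b) (ab' : Γ.Adj a' b') (τ : G)
    (h1 : ∀ v, v ∈ HS Γ a b → τ • v ∈ HS Γ a b) {v₀ : V} (hv : v₀ ∈ HS Γ a b)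
    (hv' : τ⁻¹ • v₀ ∉ HS Γ a b) (h2 : ∀ v, v ∈ HS Γ a' b' → τ • v ∈ HS Γ a' b')
    (hd : ∀ v, v ∈ HS Γ a b → v ∉ HS Γ a' b') : False := by
  classical
  have hex : ∃ n : ℕ, ∃ p q, p ∈ HS Γ a b ∧ q ∈ HS Γ a' b' ∧ Γ.dist p q = n := by
    refine ⟨_, b, b', ?_, ?_, rfl⟩
    · show Γ.dist b b < Γ.dist b a
      rw [SimpleGraph.dist_self, d1 ab.symm]
      omega
    · show Γ.dist b' b' < Γ.dist b' a'
      rw [SimpleGraph.dist_self, d1 ab'.symm]
      omega
  obtain ⟨p, q, hp, hq, hpq⟩ := Nat.find_spec hex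
  have hmin : ∀ p q, p ∈ HS Γ a b → q ∈ HS Γ a' b' → Nat.find hex ≤ Γ.dist p q := by
    intro p q hp hq
    exact Nat.find_min' hex ⟨p, q, hp, hq, rfl⟩
  obtain ⟨d, hdd⟩ : ∃ d, Nat.find hex = d := ⟨_, rfl⟩
  rw [hdd] at hpq hmin
  have hpq' : Γ.dist (τ • p) (τ • q) = d := by rw [hG.dist, hpq]
  have hq' := h2 q hq
  cases d with
  | zero =>
    have := hG.med.1.dist_eq_zero_iff.1 hpq'
    exact hd _ (h1 p hp) (by rw [this]; exact hq')
  | succ d =>
    obtain ⟨u, pu, hu⟩ := exists_nb hG.med hpq'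
    have hu1 : u ∉ HS Γ a b := fun hc => by
      have := hmin u _ hc hq'
      omega
    have hu2 : u ∉ HS Γ (τ • a) (τ • b) := fun hc => by
      apply hu1
      have h3 : τ⁻¹ • u ∈ HS Γ a b := by
        rw [← hs_smul hG τ, smul_inv_smul]
        exact hc
      have := h1 _ h3
      rwa [smul_inv_smul] at this
    have k1 := hs_edge hG.med ab _ (τ • p) u pu rfl (h1 p hp) ((not_hs hG.med ab).1 hu1)
    have k2 := hs_edge hG.med (hG.adj τ a b ab) _ (τ • p) u pu rfl ((hs_smul hG τ a b p).2 hp)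
      ((not_hs hG.med (hG.adj τ a b ab)).1 hu2)
    apply hv'
    rw [← hs_smul hG τ, smul_inv_smul]
    exact (k2 v₀).1 ((k1 v₀).2 hv)

/-- `g` moves the half-space strictly into itself -/
def Attr (Γ : SimpleGraph V) (g : G) (a b : V) : Prop :=
  Γ.Adj a b ∧ (∀ v, v ∈ HS Γ a b → g • v ∈ HS Γ a b) ∧ ∃ v, v ∈ HS Γ a b ∧ g⁻¹ • v ∉ HS Γ a b

theorem attr_pow {g : G} {a b : V} (h : Attr Γ g a b) {n : ℕ} (hn : 0 < n) :
    Attr Γ (g ^ n) a b := by
  obtain ⟨ab, h1, v, hv, hv'⟩ := h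
  have it : ∀ (n : ℕ) (v : V), v ∈ HS Γ a b → g ^ n • v ∈ HS Γ a b := by
    intro n
    induction n with
    | zero => intro v hv; simpa using hv
    | succ n ih =>
      intro v hv
      rw [pow_succ, mul_smul]
      exact ih _ (h1 v hv)
  refine ⟨ab, it n, v, hv, fun hc => hv' ?_⟩
  obtain ⟨k, rfl⟩ : ∃ k, n = k + 1 := ⟨n - 1, by omega⟩
  have := it k _ hc
  rwa [← mul_smul, show g ^ k * (g ^ (k + 1))⁻¹ = g⁻¹ by rw [pow_succ]; group] at this

/-- the elements of `D` have powers in a cyclic group -/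
def Elem (D : Subgroup G) : Prop := ∃ c : G, ∀ g ∈ D, ∃ n : ℕ, 0 < n ∧ ∃ m : ℤ, g ^ n = c ^ m

theorem Elem.mono {D D' : Subgroup G} (h : D ≤ D') (hD : Elem D') : Elem D := by
  obtain ⟨c, hc⟩ := hD
  exact ⟨c, fun g hg => hc g (h hg)⟩

theorem three (hG : Geo Γ G K) {D : Subgroup G} (hD : Elem D) {g a b : Fin 3 → _}
    (hg : ∀ i, g i ∈ D) (ha : ∀ i, Attr Γ (g i) (a i : V) (b i))
    (hd : ∀ i j, i ≠ j → ∀ v, v ∈ HS Γ (a i) (b i) → v ∉ HS Γ (a j) (b j)) : False := by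
  obtain ⟨c, hc⟩ := hD
  choose n hn m hm using fun i => hc (g i) (hg i)
  have hm0 : ∀ i, m i ≠ 0 := by
    intro i h0
    obtain ⟨-, -, v, hv, hv'⟩ := attr_pow (ha i) (hn i)
    rw [hm, h0, zpow_zero, inv_one, one_smul] at hv'
    exact hv' hv
  -- two of the exponents have the same sign
  obtain ⟨i, j, hij, hs⟩ : ∃ i j, i ≠ j ∧ (0 < m i ↔ 0 < m j) := by
    obtain ⟨i, j, hij, he⟩ := Fintype.exists_ne_map_eq_of_card_lt
      (fun i : Fin 3 => decide (0 < m i)) (by simp)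
    exact ⟨i, j, hij, by simpa using he⟩
  have e1 : g i ^ (n i * (m j).natAbs) = g j ^ (n j * (m i).natAbs) := by
    rw [pow_mul, pow_mul, hm, hm, ← zpow_natCast (c ^ m i), ← zpow_natCast (c ^ m j), ← zpow_mul,
      ← zpow_mul]
    congr 1
    have h1 := hm0 i
    have h2 := hm0 j
    by_cases hp : 0 < m i
    · have := hs.1 hp
      rw [Int.natAbs_of_nonneg hp.le, Int.natAbs_of_nonneg this.le]
      ring
    · have : ¬ 0 < m j := fun hc => hp (hs.2 hc)
      have e3 : ((m i).natAbs : ℤ) = - m i := by omega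
      have e4 : ((m j).natAbs : ℤ) = - m j := by omega
      rw [e3, e4]
      ring
  have p1 : 0 < n i * (m j).natAbs := Nat.mul_pos (hn i) (by have := hm0 j; omega)
  have p2 : 0 < n j * (m i).natAbs := Nat.mul_pos (hn j) (by have := hm0 i; omega)
  obtain ⟨ab, h1, v, hv, hv'⟩ := attr_pow (ha i) p1
  obtain ⟨ab', h2, -⟩ := attr_pow (ha j) p2
  rw [← e1] at h2
  exact no_common hG ab ab' _ h1 hv hv' h2 (hd i j hij)

theorem mem_tripod {h k : ℤ × ℤ → V} {N : ℕ} {g : G} : g ∈ tripod G Γ h k N ↔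
    (∀ j : ℤ, -N ≤ j → j ≤ 0 → ∀ v, v ∈ HS Γ (h (0, j)) (h (0, j + 1)) ↔
    g • v ∈ HS Γ (h (0, j)) (h (0, j + 1))) ∧
    ∀ v, v ∈ HS Γ (k (0, 0)) (k (0, 1)) ↔ g • v ∈ HS Γ (k (0, 0)) (k (0, 1)) := Iff.rfl

/-- the half-space above a row of a flat can be read off at each vertex -/
theorem hs_row (hG : Geo Γ G K) {h : ℤ × ℤ → V} (hf : IsFlat Γ h) (i i' j : ℤ) :
    HS Γ (h (i, j)) (h (i, j + 1)) = HS Γ (h (i', j)) (h (i', j + 1)) := by
  ext v
  exact Rt_row hG.med hf.swap j i i' v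

theorem tripod_col {h k h' k' : ℤ × ℤ → V} {N : ℕ}
    (hc : ∀ j : ℤ, -N ≤ j → j ≤ 1 → h (0, j) = h' (0, j)) (h0 : k (0, 0) = k' (0, 0))
    (h1 : k (0, 1) = k' (0, 1)) : tripod G Γ h k N = tripod G Γ h' k' N := by
  ext g
  rw [mem_tripod, mem_tripod, h0, h1]
  refine and_congr (forall_congr' fun j => ?_) Iff.rfl
  constructor
  · intro h2 j1 j2
    rw [← hc j j1 (by omega), ← hc (j + 1) (by omega) (by omega)]
    exact h2 j1 j2
  · intro h2 j1 j2
    rw [hc j j1 (by omega), hc (j + 1) (by omega) (by omega)]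
    exact h2 j1 j2

/-- recurrence along a row -/
theorem recur (hG : Geo Γ G K) {h k : ℤ × ℤ → V} (hf : IsFlat Γ h) (kf : IsFlat Γ k)
    (h0 : ∀ i : ℤ, h (i, 0) = k (i, 0)) (N : ℕ) (B : ℤ) :
    ∃ i i' : ℤ, B ≤ i ∧ i < i' ∧ ∃ g : G, (∀ j : ℤ, -N ≤ j → j ≤ 1 → g • h (i, j) = h (i', j)) ∧
      g • k (i, 1) = k (i', 1) ∧ g • h (i + 1, 0) = h (i' + 1, 0) := by
  choose γ hγ using fun v : V => hG.cov v
  have hfin : (((Set.univ.pi fun _ : Fin (N + 2) => {w | ∃ u ∈ K, Γ.dist u w ≤ N + 1}) ×ˢ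
      ({w | ∃ u ∈ K, Γ.dist u w ≤ 1} ×ˢ {w | ∃ u ∈ K, Γ.dist u w ≤ 1})) :
      Set ((Fin (N + 2) → V) × V × V)).Finite :=
    (Set.Finite.pi fun _ => ballK hG _).prod ((ballK hG _).prod (ballK hG _))
  obtain ⟨m, -, m', -, hne, he⟩ := (Set.infinite_univ (α := ℕ)).exists_ne_map_eq_of_mapsTo
    (f := fun m : ℕ => ((fun j : Fin (N + 2) => γ (h (B + m, 0)) • h (B + m, (j.1 : ℤ) - N)),
      γ (h (B + m, 0)) • k (B + m, 1), γ (h (B + m, 0)) • h (B + m + 1, 0))) (by
      intro m _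
      refine ⟨?_, ?_, ?_⟩
      · rw [Set.mem_univ_pi]
        intro j
        refine ⟨_, hγ (h (B + m, 0)), ?_⟩
        rw [hG.dist]
        have h1 := hf (B + m, 0) (B + m, (j.1 : ℤ) - N)
        simp only [sub_self, abs_zero, zero_add] at h1
        have h2 := j.2
        have h3 : |(0 : ℤ) - (j.1 - N)| ≤ N + 1 := by
          rw [abs_le]
          constructor <;> omega
        omega
      · refine ⟨_, hγ (h (B + m, 0)), ?_⟩
        show Γ.dist (γ (h (B + m, 0)) • h (B + m, 0)) (γ (h (B + m, 0)) • k (B + m, 1)) ≤ 1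
        rw [hG.dist, h0, flat_dist kf (n := 1) (by simp)]
      · refine ⟨_, hγ (h (B + m, 0)), ?_⟩
        show Γ.dist (γ (h (B + m, 0)) • h (B + m, 0)) (γ (h (B + m, 0)) • h (B + m + 1, 0)) ≤ 1
        rw [hG.dist, flat_dist hf (n := 1) (by simp)]) hfin
  wlog hlt : m < m' generalizing m m'
  · exact this m' m hne.symm he.symm (by omega)
  simp only [Prod.mk.injEq] at he
  obtain ⟨e1, e2, e3⟩ := he
  refine ⟨B + m, B + m', by omega, by omega, (γ (h (B + m', 0)))⁻¹ * γ (h (B + m, 0)), ?_, ?_, ?_⟩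
  · intro j j1 j2
    have h1 := congrFun e1 ⟨(j + N).toNat, by omega⟩
    simp only [] at h1
    rw [show (((j + N).toNat : ℕ) : ℤ) - N = j by omega] at h1
    rw [mul_smul, h1, inv_smul_smul]
  · rw [mul_smul, e2, inv_smul_smul]
  · rw [mul_smul, e3, inv_smul_smul]

/-- an element of the stabiliser of the tripod which translates to the right -/
theorem right_elt (hG : Geo Γ G K) (hno : ¬ HasCube Γ) {h k : ℤ × ℤ → V} (hf : IsFlat Γ h)
    (kf : IsFlat Γ k) (h0 : ∀ i : ℤ, h (i, 0) = k (i, 0)) (N : ℕ) (B : ℤ) :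
    ∃ i : ℤ, B ≤ i ∧ ∃ g ∈ tripod G Γ h k N, Attr Γ g (h (i, 0)) (h (i + 1, 0)) := by
  obtain ⟨i, i', hB, hlt, g, g1, g2, g3⟩ := recur hG hf kf h0 N B
  have g0 := g1 0 (by omega) (by omega)
  have hc := convex_of_noCube hG.med hno hf
  refine ⟨i, hB, g, ⟨fun j j1 j2 v => ?_, fun v => ?_⟩, hf.right i 0, fun v hv => ?_,
    h (i + 1, 0), ?_, fun hcon => ?_⟩
  · rw [hs_row hG hf 0 i j]
    nth_rewrite 2 [hs_row hG hf i i' j]
    rw [← g1 j j1 (by omega), ← g1 (j + 1) (by omega) (by omega), hs_smul hG]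
  · have e1 : HS Γ (k (0, 0)) (k (0, 1)) = HS Γ (k (i, 0)) (k (i, 1)) := by
      have := hs_row hG kf 0 i 0
      rwa [zero_add] at this
    have e2 : HS Γ (k (i, 0)) (k (i, 1)) = HS Γ (k (i', 0)) (k (i', 1)) := by
      have := hs_row hG kf i i' 0
      rwa [zero_add] at this
    rw [e1]
    nth_rewrite 2 [e2]
    rw [← h0 i', ← g0, ← g2, hs_smul hG, h0]
  · refine Rt_mono hG.med hf hc hlt.le 0 _ ?_
    show g • v ∈ HS Γ (h (i', 0)) (h (i' + 1, 0))
    rw [← g0, ← g3, hs_smul hG]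
    exact hv
  · exact Rt_self hf le_rfl 0
  · refine not_Rt hf hlt 0 ?_
    show h (i + 1, 0) ∈ HS Γ (h (i', 0)) (h (i' + 1, 0))
    rw [← g0, ← g3, ← smul_inv_smul g (h (i + 1, 0)), hs_smul hG, smul_inv_smul]
    exact hcon

/-- two tripods with the same column `0` whose rows separate on the right -/
theorem core (hG : Geo Γ G K) (hno : ¬ HasCube Γ) {h k h' k' : ℤ × ℤ → V} (hf : IsFlat Γ h)
    (kf : IsFlat Γ k) (hf' : IsFlat Γ h') (kf' : IsFlat Γ k') {N : ℕ}
    (h0 : ∀ i : ℤ, h (i, 0) = k (i, 0)) (h0' : ∀ i : ℤ, h' (i, 0) = k' (i, 0))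
    (hc : ∀ j : ℤ, -N ≤ j → j ≤ 1 → h (0, j) = h' (0, j)) (hk1 : k (0, 1) = k' (0, 1))
    {i₀ : ℕ} (hag : ∀ i : ℤ, 0 ≤ i → i ≤ i₀ → h (i, 0) = h' (i, 0))
    (hne : h (i₀ + 1, 0) ≠ h' (i₀ + 1, 0)) (hE : Elem (tripod G Γ h k N)) {g : G} {a b : V}
    (hg : g ∈ tripod G Γ h k N) (hat : Attr Γ g a b)
    (hd : ∀ v, v ∈ HS Γ a b → v ∉ HS Γ (h (i₀, 0)) (h (i₀ + 1, 0)))
    (hd' : ∀ v, v ∈ HS Γ a b → v ∉ HS Γ (h' (i₀, 0)) (h' (i₀ + 1, 0))) : False := by
  have hcv := convex_of_noCube hG.med hno hf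
  have hcv' := convex_of_noCube hG.med hno hf'
  have et : tripod G Γ h k N = tripod G Γ h' k' N :=
    tripod_col hc (by rw [← h0, ← h0', hc 0 (by omega) (by omega)]) hk1
  have ex := hag i₀ (by omega) le_rfl
  have eu : h (i₀, 1) = h' (i₀, 1) :=
    rowprop hG.med hf hf' (x0 := 0) (x1 := i₀) (y := 0) (y' := 1) (by simp)
      (fun x q1 q2 => hag x q1 q2) (x := 0) le_rfl (by omega) (hc 1 (by omega) le_rfl) i₀
      (by omega) le_rfl
  -- the two edges do not span a square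
  have hu : ∀ m, Γ.Adj (h' (i₀ + 1, 0)) m → Γ.Adj (h (i₀ + 1, 0)) m → m = h (i₀, 0) := by
    intro m m1 m2
    by_contra hm
    apply hno
    have a3 := hf'.right i₀ 0
    have a5 := hf'.right i₀ 1
    rw [← ex] at a3
    rw [← eu] at a5
    refine cube_of hG.med (x := h (i₀, 0)) (y := h (i₀ + 1, 0)) (y' := h' (i₀ + 1, 0))
      (u := h (i₀, 1)) (v := h (i₀ + 1, 1)) (v' := h' (i₀ + 1, 1)) (z := m)
      (hf.right i₀ 0) a3 (by simpa using hf.up i₀ 0) (hf.right i₀ 1) a5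
      (by simpa using hf.up (i₀ + 1) 0) (by simpa using hf'.up (i₀ + 1) 0) hne ?_ ?_ ?_ ?_
      m2 m1 hm
    · intro e
      have := hf.inj e
      simp at this
    · intro e
      rw [eu] at e
      have := hf'.inj e
      simp at this
    · intro e
      have := hf.inj e
      simp at this
    · intro e
      rw [ex] at e
      have := hf'.inj e
      simp at this
  have hdis : ∀ v, v ∈ HS Γ (h (i₀, 0)) (h (i₀ + 1, 0)) →
      v ∉ HS Γ (h' (i₀, 0)) (h' (i₀ + 1, 0)) := by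
    intro v hv hv'
    have a3 := hf'.right i₀ 0
    rw [← ex] at a3 hv'
    have h3 := nest hG.med a3.symm (hf.right i₀ 0) hne.symm hu hv
    have h4 : Γ.dist v (h' (i₀ + 1, 0)) < Γ.dist v (h (i₀, 0)) := hv'
    omega
  obtain ⟨i1, hi1, g1, hg1, ha1⟩ := right_elt hG hno hf kf h0 N i₀
  obtain ⟨i2, hi2, g2, hg2, ha2⟩ := right_elt hG hno hf' kf' h0' N i₀
  rw [← et] at hg2
  have s1 : ∀ v, v ∈ HS Γ (h (i1, 0)) (h (i1 + 1, 0)) → v ∈ HS Γ (h (i₀, 0)) (h (i₀ + 1, 0)) :=
    fun v hv => Rt_mono hG.med hf hcv hi1 0 v hv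
  have s2 : ∀ v, v ∈ HS Γ (h' (i2, 0)) (h' (i2 + 1, 0)) →
      v ∈ HS Γ (h' (i₀, 0)) (h' (i₀ + 1, 0)) :=
    fun v hv => Rt_mono hG.med hf' hcv' hi2 0 v hv
  refine three hG hE (g := ![g1, g2, g]) (a := ![h (i1, 0), h' (i2, 0), a])
    (b := ![h (i1 + 1, 0), h' (i2 + 1, 0), b]) ?_ ?_ ?_
  · intro i
    fin_cases i
    · exact hg1
    · exact hg2
    · exact hg
  · intro i
    fin_cases i
    · exact ha1
    · exact ha2
    · exact hat
  · intro i j hij v
    fin_cases i <;> fin_cases j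
    · exact absurd rfl hij
    · exact fun hv hv' => hdis v (s1 v hv) (s2 v hv')
    · exact fun hv hv' => hd v hv' (s1 v hv)
    · exact fun hv hv' => hdis v (s1 v hv') (s2 v hv)
    · exact absurd rfl hij
    · exact fun hv hv' => hd' v hv' (s2 v hv)
    · exact fun hv hv' => hd v hv (s1 v hv')
    · exact fun hv hv' => hd' v hv (s2 v hv')
    · exact absurd rfl hij

end Pool.Agent.H348.GB
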