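import Pool.Agent.H348.GB.Quad
import Pool.Agent.H348.GB.Tri

/-!
# The union of four flats which branch in both directions is a product of two tripods
-/

set_option autoImplicit false

namespace Pool.Agent.H348.GB

open Function Set
open Pool.Agent.W5h69.CR

variable {V : Type*} {Γ : SimpleGraph V}

/-- distances to the vertices of a row which lie beyond a wall which is not crossed -/
theorem far (h : IsMedian Γ) {f : ℤ × ℤ → V} (hf : IsFlat Γ f) (hc : ConvexImage Γ f) {v : V}
    {y : ℤ} (hv : ¬ Rt Γ f 0 y v) (m : ℕ) : Γ.dist v (f (m, y)) = m + Γ.dist v (f (0, y)) := by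
  induction m with
  | zero => simp
  | succ m ih =>
    have h1 := step h (hf.right m y) v
    have h2 : ¬ Rt Γ f m y v := fun hc' => hv (Rt_mono h hf hc (by omega) y v hc')
    unfold Rt at h2
    push_cast at ih ⊢
    omega

namespace Quad

variable {F : Bool → Bool → ℤ × ℤ → V}

theorem convex (h : IsMedian Γ) (hno : ¬ HasCube Γ) (hF : Quad Γ F) (s t : Bool) :
    ConvexImage Γ (F s t) := convex_of_noCube h hno (hF.flat s t)

theorem right_ne (hF : Quad Γ F) {s s' : Bool} (hs : s ≠ s') (t : Bool) :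
    F s t (1, 0) ≠ F s' t (1, 0) := by
  cases s <;> cases s'
  · exact absurd rfl hs
  · exact hF.right t
  · exact (hF.right t).symm
  · exact absurd rfl hs

theorem rt_low (hF : Quad Γ F) (s t t' : Bool) (v : V) :
    Rt Γ (F s t) 0 0 v ↔ Rt Γ (F s t') 0 0 v := by
  unfold Rt
  rw [hF.low s t t' _ 0 le_rfl, hF.low s t t' 0 0 le_rfl]

/-- the two half-spaces on the right are disjoint -/
theorem disj (h : IsMedian Γ) (hno : ¬ HasCube Γ) (hF : Quad Γ F) {s s' : Bool} (hs : s ≠ s')
    (t : Bool) {v : V} (hv : Rt Γ (F s t) 0 0 v) : ¬ Rt Γ (F s' t) 0 0 v := by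
  intro hv'
  have e0 := hF.left s s' t 0 0 le_rfl
  have e1 := hF.left s s' t 0 1 le_rfl
  have hne := hF.right_ne hs t
  have f1 := hF.flat s t
  have f2 := hF.flat s' t
  have a1 := f1.right 0 0
  have a2 := f2.right 0 0
  have a3 := f1.right 0 1
  have a4 := f2.right 0 1
  have b1 := f1.up 0 0
  have b2 := f1.up 1 0
  have b3 := f2.up 1 0
  rw [zero_add] at a1 a2 a3 a4 b1 b2 b3
  rw [← e0] at a2
  rw [← e1] at a4
  have hu : ∀ m, Γ.Adj (F s' t (1, 0)) m → Γ.Adj (F s t (1, 0)) m → m = F s t (0, 0) := by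
    intro m m1 m2
    by_contra hm
    apply hno
    refine cube_of h (x := F s t (0, 0)) (y := F s t (1, 0)) (y' := F s' t (1, 0))
      (u := F s t (0, 1)) (v := F s t (1, 1)) (v' := F s' t (1, 1)) (z := m)
      a1 a2 b1 a3 a4 b2 b3 hne ?_ ?_ ?_ ?_ m2 m1 hm
    · intro e
      have := f1.inj e
      simp at this
    · intro e
      rw [e1] at e
      have := f2.inj e
      simp at this
    · intro e
      have := f1.inj e
      simp at this
    · intro e
      rw [e0] at e
      have := f2.inj e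
      simp at this
  unfold Rt at hv hv'
  rw [zero_add] at hv hv'
  rw [← e0] at hv'
  have h3 := nest h a2.symm a1 hne.symm hu hv
  omega

/-- the vertices of the flats `F s' t'` do not lie in the half-space on the right in `F s t` -/
theorem not_rt (h : IsMedian Γ) (hno : ¬ HasCube Γ) (hF : Quad Γ F) {s s' : Bool} (hs : s ≠ s')
    (t t' : Bool) (m y y' : ℤ) : ¬ Rt Γ (F s t) 0 y (F s' t' (m, y')) := by
  rw [Rt_row h (hF.flat s t) 0 y 0, hF.rt_low s t t']
  rcases le_or_gt m 0 with hm | hm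
  · rw [hF.left s' s t' m y' hm, Rt_row h (hF.flat s t') 0 0 y']
    have := not_Rt (hF.flat s t') (x := m - 1) (x' := 0) (by omega) y'
    rwa [sub_add_cancel] at this
  · refine hF.disj h hno hs.symm t' ?_
    rw [Rt_row h (hF.flat s' t') 0 0 y']
    have := Rt_self (hF.flat s' t') (x := m - 1) (x' := 0) (by omega) y'
    rwa [sub_add_cancel] at this

theorem far (h : IsMedian Γ) (hno : ¬ HasCube Γ) (hF : Quad Γ F) {s s' : Bool} (hs : s ≠ s')
    (t t' : Bool) (m y y' : ℤ) {n : ℤ} (hn : 0 ≤ n) :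
    (Γ.dist (F s' t' (m, y')) (F s t (n, y)) : ℤ) =
      n + Γ.dist (F s' t' (m, y')) (F s t (0, y)) := by
  obtain ⟨n, rfl⟩ := Int.eq_ofNat_of_zero_le hn
  have := GB.far h (hF.flat s t) (hF.convex h hno s t) (hF.not_rt h hno hs t t' m y y') n
  omega

end Quad

/-- the distance in a tripod with the legs `x ≤ 0`, `(false, x)` and `(true, x)`, `x ≥ 0` -/
def dd (s s' : Bool) (x x' : ℤ) : ℤ := if s = s' ∨ x ≤ 0 ∨ x' ≤ 0 then |x - x'| else x + x'

namespace Quad

variable {F : Bool → Bool → ℤ × ℤ → V}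

theorem dist1 (h : IsMedian Γ) (hno : ¬ HasCube Γ) (hF : Quad Γ F) (s t t' : Bool)
    (x x' y y' : ℤ) : (Γ.dist (F s t (x, y)) (F s t' (x', y')) : ℤ) = |x - x'| + dd t t' y y' := by
  unfold dd
  split_ifs with hc
  · rcases hc with rfl | hc | hc
    · rw [hF.flat]
    · rw [hF.low s t t' x y hc, hF.flat]
    · rw [hF.low s t' t x' y' hc, hF.flat]
  · push Not at hc
    obtain ⟨h1, h2, h3⟩ := hc
    have := hF.swap.far h hno h1.symm s s y x' x h3.le
    simp only [] at this
    rw [this, hF.low s t' t x' 0 le_rfl, hF.flat]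
    simp only [sub_zero]
    rw [abs_of_pos h2]
    ring

/-- **the union of the four flats is an isometric product of two tripods** -/
theorem dist (h : IsMedian Γ) (hno : ¬ HasCube Γ) (hF : Quad Γ F) (s s' t t' : Bool)
    (x x' y y' : ℤ) :
    (Γ.dist (F s t (x, y)) (F s' t' (x', y')) : ℤ) = dd s s' x x' + dd t t' y y' := by
  by_cases hc : s = s' ∨ x ≤ 0 ∨ x' ≤ 0
  · have e : dd s s' x x' = |x - x'| := by
      unfold dd
      rw [if_pos hc]
    rw [e]
    rcases hc with rfl | hc | hc
    · exact hF.dist1 h hno s t t' x x' y y'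
    · rw [hF.left s s' t x y hc, hF.dist1 h hno]
    · rw [hF.left s' s t' x' y' hc, hF.dist1 h hno]
  · have e : dd s s' x x' = x + x' := by
      unfold dd
      rw [if_neg hc]
    rw [e]
    push Not at hc
    obtain ⟨h1, h2, h3⟩ := hc
    rw [hF.far h hno h1.symm t' t x y' y h3.le, hF.left s' s t' 0 y' le_rfl, hF.dist1 h hno,
      sub_zero, abs_of_pos h2]
    ring

end Quad

end Pool.Agent.H348.GB
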