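import Pool.Agent.H348.GB.Trip

/-!
# Products of two infinite tripods
-/

set_option autoImplicit false

namespace Pool.Agent.H348.GB

open Function Set
open Pool.Agent.W5h69.CR

/-- The distance between two vertices of the infinite tripod.  The vertex `(i, n)` is the vertex at
distance `n` from the centre on the leg `i`; so the vertices `(i, 0)` are all equal to the centre. -/
def tripodDist (p q : Fin 3 × ℕ) : ℤ := if p.1 = q.1 then |(p.2 : ℤ) - q.2| else (p.2 : ℤ) + q.2

/-- `Φ` is an isometric embedding of the product of two infinite tripods into the graph (with the sum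
of the metrics of the factors). -/
def IsTripodProduct {V : Type*} (Γ : SimpleGraph V) (Φ : (Fin 3 × ℕ) × (Fin 3 × ℕ) → V) : Prop :=
  ∀ z w : (Fin 3 × ℕ) × (Fin 3 × ℕ),
    (Γ.dist (Φ z) (Φ w) : ℤ) = tripodDist z.1 w.1 + tripodDist z.2 w.2

/-- The two lines `ℤ → tripod` which start with the leg `0` (at `-∞`) and end with the leg `1`
(`s = false`) or with the leg `2` (`s = true`). -/
def leg (s : Bool) (x : ℤ) : Fin 3 × ℕ :=
  (if x ≤ 0 then 0 else if s then 2 else 1, x.natAbs)

/-- The link of some vertex `x` contains the complete bipartite graph `K_{3,3}`: there are different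
neighbours `a 0`, `a 1`, `a 2`, `b 0`, `b 1`, `b 2` of `x` such that for all `i`, `j` there is a square
with the vertices `x`, `a i`, `c i j`, `b j`. -/
def LinkK33 {V : Type*} (Γ : SimpleGraph V) : Prop :=
  ∃ (x : V) (a b : Fin 3 → V) (c : Fin 3 → Fin 3 → V), Injective a ∧ Injective b ∧
    (∀ i j, a i ≠ b j) ∧ (∀ i, Γ.Adj x (a i)) ∧ (∀ j, Γ.Adj x (b j)) ∧
    ∀ i j, c i j ≠ x ∧ Γ.Adj (a i) (c i j) ∧ Γ.Adj (b j) (c i j)

variable {V : Type*} {Γ : SimpleGraph V}

theorem dd_leg (p q : Fin 3 × ℕ) :
    dd (decide (p.1 = 2)) (decide (q.1 = 2)) (if p.1 = 0 then -(p.2 : ℤ) else p.2)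
      (if q.1 = 0 then -(q.2 : ℤ) else q.2) = tripodDist p q := by
  obtain ⟨i, m⟩ := p
  obtain ⟨j, n⟩ := q
  unfold dd tripodDist
  fin_cases i <;> fin_cases j <;> simp <;> (try simp only [Int.abs_eq_natAbs]) <;> omega

/-- the product of tripods defined by four flats which branch in both directions -/
theorem Quad.tripods (h : IsMedian Γ) (hno : ¬ HasCube Γ) {F : Bool → Bool → ℤ × ℤ → V}
    (hF : Quad Γ F) : ∃ Φ : (Fin 3 × ℕ) × (Fin 3 × ℕ) → V, IsTripodProduct Γ Φ ∧
      ∀ (s t : Bool) (x y : ℤ), Φ (leg s x, leg t y) = F s t (x, y) := by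
  refine ⟨fun z => F (decide (z.1.1 = 2)) (decide (z.2.1 = 2))
    (if z.1.1 = 0 then -(z.1.2 : ℤ) else z.1.2, if z.2.1 = 0 then -(z.2.2 : ℤ) else z.2.2),
    fun z w => ?_, fun s t x y => ?_⟩
  · rw [hF.dist h hno, dd_leg, dd_leg]
  · have key : ∀ (s : Bool) (x : ℤ), (if (leg s x).1 = 0 then -((leg s x).2 : ℤ) else (leg s x).2) = x
        ∧ (0 < x → decide ((leg s x).1 = 2) = s) := by
      intro s x
      unfold leg
      rcases le_or_gt x 0 with hx | hx
      · simp only [if_pos hx, if_true]
        exact ⟨by omega, fun h => absurd h (by omega)⟩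
      · simp only [if_neg (not_le.2 hx)]
        cases s
        · simp only [Bool.false_eq_true, if_false]
          refine ⟨?_, fun _ => by decide⟩
          rw [if_neg (by decide)]
          omega
        · simp only [if_true]
          refine ⟨?_, fun _ => by decide⟩
          rw [if_neg (by decide)]
          omega
    simp only [(key s x).1, (key t y).1]
    have e1 : ∀ t', F (decide ((leg s x).1 = 2)) t' (x, y) = F s t' (x, y) := by
      intro t'
      rcases le_or_gt x 0 with hx | hx
      · exact hF.left _ _ _ _ _ hx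
      · rw [(key s x).2 hx]
    have e2 : F s (decide ((leg t y).1 = 2)) (x, y) = F s t (x, y) := by
      rcases le_or_gt y 0 with hy | hy
      · exact hF.low _ _ _ _ _ hy
      · rw [(key t y).2 hy]
    rw [e1, e2]

theorem IsTripodProduct.k33 {Φ : (Fin 3 × ℕ) × (Fin 3 × ℕ) → V}
    (hΦ : IsTripodProduct Γ Φ) : LinkK33 Γ := by
  have inj : ∀ z w, tripodDist z.1 w.1 + tripodDist z.2 w.2 ≠ 0 → Φ z ≠ Φ w := by
    intro z w hzw he
    have := hΦ z w
    rw [he, SimpleGraph.dist_self] at this
    exact hzw this.symm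
  have adj : ∀ z w, tripodDist z.1 w.1 + tripodDist z.2 w.2 = 1 → Γ.Adj (Φ z) (Φ w) := by
    intro z w hzw
    have := hΦ z w
    rw [hzw] at this
    exact SimpleGraph.dist_eq_one_iff_adj.1 (by exact_mod_cast this)
  have e1 : ∀ i : Fin 3, tripodDist (0, 0) (i, 1) = 1 := by
    intro i
    unfold tripodDist
    fin_cases i <;> simp
  have e2 : ∀ i : Fin 3, tripodDist (i, 1) (i, 1) = 0 := by
    intro i
    unfold tripodDist
    simp
  have e3 : ∀ i j : Fin 3, i ≠ j → tripodDist (i, 1) (j, 1) = 2 := by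
    intro i j hij
    unfold tripodDist
    rw [if_neg hij]
    norm_num
  have e4 : tripodDist (0, 0) (0, 0) = 0 := by
    unfold tripodDist
    simp
  have e5 : ∀ i : Fin 3, tripodDist (i, 1) (0, 0) = 1 := by
    intro i
    unfold tripodDist
    fin_cases i <;> simp
  refine ⟨Φ ((0, 0), (0, 0)), fun i => Φ ((i, 1), (0, 0)), fun j => Φ ((0, 0), (j, 1)),
    fun i j => Φ ((i, 1), (j, 1)), fun i i' he => ?_, fun i i' he => ?_, fun i j => ?_, fun i => ?_,
    fun j => ?_, fun i j => ⟨?_, ?_, ?_⟩⟩
  · by_contra hne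
    refine inj _ _ ?_ he
    simp only [e3 _ _ hne, e4]
    norm_num
  · by_contra hne
    refine inj _ _ ?_ he
    simp only [e3 _ _ hne, e4]
    norm_num
  · apply inj
    simp only [e1, e5]
    norm_num
  · apply adj
    simp only [e1, e4]
    norm_num
  · apply adj
    simp only [e1, e4]
    norm_num
  · apply inj
    simp only [e5]
    norm_num
  · apply adj
    simp only [e1, e2]
    norm_num
  · apply adj
    simp only [e1, e2]
    norm_num

end Pool.Agent.H348.GB
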