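import Pool.Agent.H348.GB.Tri

/-!
# Branching rows whose tripods have virtually cyclic stabilisers
-/

set_option autoImplicit false

namespace Pool.Agent.H348.GB

open Function Set
open Pool.Agent.W5h69.CR

variable {V : Type*} {G : Type*} [Group G] [MulAction G V] {Γ : SimpleGraph V} {K : Set V}

theorem rt_zero {h : ℤ × ℤ → V} {v : V} : Rt Γ h 0 0 v ↔ v ∈ HS Γ (h (0, 0)) (h (1, 0)) := by
  unfold Rt
  rw [zero_add]
  rfl

/-- a tripod with elementary stabiliser determines its row -/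
theorem uniq (hG : Geo Γ G K) (hno : ¬ HasCube Γ) {h k h' k' : ℤ × ℤ → V} (hf : IsFlat Γ h)
    (kf : IsFlat Γ k) (hf' : IsFlat Γ h') (kf' : IsFlat Γ k') {N : ℕ}
    (h0 : ∀ i : ℤ, h (i, 0) = k (i, 0)) (h0' : ∀ i : ℤ, h' (i, 0) = k' (i, 0))
    (hc : ∀ j : ℤ, -N ≤ j → j ≤ 1 → h (0, j) = h' (0, j)) (hk1 : k (0, 1) = k' (0, 1))
    (h1 : h (1, 0) = h' (1, 0)) (hE : Elem (tripod G Γ h k N)) (i : ℤ) :
    h (i, 0) = h' (i, 0) := by
  classical
  have hcv := convex_of_noCube hG.med hno hf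
  have hcv' := convex_of_noCube hG.med hno hf'
  have z0 := hc 0 (by omega) (by omega)
  have e01 : HS Γ (h (0, 0)) (h (1, 0)) = HS Γ (h' (0, 0)) (h' (1, 0)) := by rw [z0, h1]
  have opp : ∀ {a b v : V}, v ∈ HS Γ a b → v ∉ HS Γ b a := by
    intro a b v hv hv'
    have q1 : Γ.dist v b < Γ.dist v a := hv
    have q2 : Γ.dist v a < Γ.dist v b := hv'
    omega
  have eN : tripod G Γ (fun z => h (-z.1, z.2)) (fun z => k (-z.1, z.2)) N =
      tripod G Γ h k N :=
    tripod_col (fun j _ _ => by simp) (by simp) (by simp)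
  have pos : ∀ n : ℕ, h (n, 0) = h' (n, 0) := by
    by_contra hcon
    push Not at hcon
    have hmin := fun m (hm : m < Nat.find hcon) => Nat.find_min hcon hm
    have hspec := Nat.find_spec hcon
    obtain ⟨n, hn⟩ : ∃ n, Nat.find hcon = n := ⟨_, rfl⟩
    rw [hn] at hmin hspec
    obtain ⟨i₀, rfl⟩ : ∃ i₀, n = i₀ + 1 := ⟨n - 1, by
      rcases Nat.eq_zero_or_pos n with rfl | h2
      · exact absurd (by simpa using z0) hspec
      · omega⟩
    obtain ⟨i, hi, g, hg, hat⟩ := right_elt hG hno hf.neg1 kf.neg1 (fun i => h0 (-i)) N 0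
    rw [eN] at hg
    have inc : ∀ v, v ∈ HS Γ (h (0, 0)) (h (1, 0)) →
        v ∈ HS Γ (h (-(i + 1), 0)) (h (-i, 0)) := by
      intro v hv
      have := Rt_mono hG.med hf hcv (x := -(i + 1)) (x' := 0) (by omega) 0 v (rt_zero.2 hv)
      unfold Rt at this
      rwa [show -(i + 1) + 1 = -i by ring] at this
    refine core hG hno hf kf hf' kf' h0 h0' hc hk1 (i₀ := i₀) (fun i i1 i2 => ?_) ?_ hE hg hat
      (fun v hv hv' => ?_) (fun v hv hv' => ?_)
    · obtain ⟨m, rfl⟩ := Int.eq_ofNat_of_zero_le i1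
      have := hmin m (by omega)
      push Not at this
      exact this
    · push_cast at hspec
      exact hspec
    · have h3 : v ∈ HS Γ (h (0, 0)) (h (1, 0)) := by
        exact rt_zero.1 (Rt_mono hG.med hf hcv (x := 0) (x' := i₀) (by omega) 0 v hv')
      exact opp hv (inc v h3)
    · have h3 : v ∈ HS Γ (h (0, 0)) (h (1, 0)) := by
        rw [e01]
        exact rt_zero.1 (Rt_mono hG.med hf' hcv' (x := 0) (x' := i₀) (by omega) 0 v hv')
      exact opp hv (inc v h3)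
  have neg : ∀ n : ℕ, h (-n, 0) = h' (-n, 0) := by
    by_contra hcon
    push Not at hcon
    have hmin := fun m (hm : m < Nat.find hcon) => Nat.find_min hcon hm
    have hspec := Nat.find_spec hcon
    obtain ⟨n, hn⟩ : ∃ n, Nat.find hcon = n := ⟨_, rfl⟩
    rw [hn] at hmin hspec
    obtain ⟨i₀, rfl⟩ : ∃ i₀, n = i₀ + 1 := ⟨n - 1, by
      rcases Nat.eq_zero_or_pos n with rfl | h2
      · exact absurd (by simpa using z0) hspec
      · omega⟩
    obtain ⟨i, hi, g, hg, hat⟩ := right_elt hG hno hf kf h0 N 0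
    have inc : ∀ v, v ∈ HS Γ (h (i, 0)) (h (i + 1, 0)) → v ∈ HS Γ (h (0, 0)) (h (1, 0)) := by
      intro v hv
      exact rt_zero.1 (Rt_mono hG.med hf hcv (x := 0) (x' := i) hi 0 v hv)
    refine core hG hno hf.neg1 kf.neg1 hf'.neg1 kf'.neg1 (fun i => h0 (-i)) (fun i => h0' (-i))
      (fun j j1 j2 => by simpa using hc j j1 j2) (by simpa using hk1) (i₀ := i₀)
      (fun i i1 i2 => ?_) ?_ (by rw [eN]; exact hE) (by rw [eN]; exact hg) hat
      (fun v hv hv' => ?_) (fun v hv hv' => ?_)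
    · obtain ⟨m, rfl⟩ := Int.eq_ofNat_of_zero_le i1
      have := hmin m (by omega)
      push Not at this
      exact this
    · push_cast at hspec
      exact hspec
    · have h3 := inc v hv
      have := Rt_mono hG.med hf hcv (x := -(i₀ + 1 : ℤ)) (x' := 0) (by omega) 0 v
        (rt_zero.2 h3)
      unfold Rt at this
      rw [show -(i₀ + 1 : ℤ) + 1 = -i₀ by ring] at this
      exact opp (show v ∈ HS Γ (h (-(i₀ + 1 : ℤ), 0)) (h (-i₀, 0)) from this) hv'
    · have h3 := inc v hv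
      rw [e01] at h3
      have := Rt_mono hG.med hf' hcv' (x := -(i₀ + 1 : ℤ)) (x' := 0) (by omega) 0 v
        (rt_zero.2 h3)
      unfold Rt at this
      rw [show -(i₀ + 1 : ℤ) + 1 = -i₀ by ring] at this
      exact opp (show v ∈ HS Γ (h' (-(i₀ + 1 : ℤ), 0)) (h' (-i₀, 0)) from this) hv'
  rcases le_total 0 i with hi | hi
  · obtain ⟨n, rfl⟩ := Int.eq_ofNat_of_zero_le hi
    exact pos n
  · obtain ⟨n, hn⟩ := Int.eq_ofNat_of_zero_le (neg_nonneg.2 hi)
    obtain rfl : i = -n := by omega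
    exact neg n

/-- conjugation of the stabiliser of a tripod -/
theorem elem_mv (hG : Geo Γ G K) {h k : ℤ × ℤ → V} (hf : IsFlat Γ h) (kf : IsFlat Γ k) {N : ℕ}
    (g : G) (m : ℤ)
    (hE : Elem (tripod G Γ (fun z => g • h (z + (m, 0))) (fun z => g • k (z + (m, 0))) N)) :
    Elem (tripod G Γ h k N) := by
  obtain ⟨c, hc⟩ := hE
  refine ⟨g⁻¹ * c * g, fun γ hγ => ?_⟩
  obtain ⟨n, hn, l, hl⟩ := hc (g * γ * g⁻¹) (by
    obtain ⟨h1, h2⟩ := hγ
    have key : ∀ (a b : V), (∀ v, v ∈ HS Γ a b ↔ γ • v ∈ HS Γ a b) →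
        ∀ v, v ∈ HS Γ (g • a) (g • b) ↔ (g * γ * g⁻¹) • v ∈ HS Γ (g • a) (g • b) := by
      intro a b hab v
      obtain ⟨w, rfl⟩ : ∃ w, v = g • w := ⟨g⁻¹ • v, by rw [smul_inv_smul]⟩
      rw [mul_smul, mul_smul, inv_smul_smul, hs_smul hG, hs_smul hG]
      exact hab w
    refine ⟨fun j j1 j2 => ?_, ?_⟩
    · simp only [Prod.mk_add_mk, zero_add, add_zero]
      apply key
      rw [hs_row hG hf m 0 j]
      exact h1 j j1 j2
    · simp only [Prod.mk_add_mk, zero_add, add_zero]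
      apply key
      have := hs_row hG kf m 0 0
      rw [zero_add] at this
      rw [this]
      exact h2)
  refine ⟨n, hn, l, ?_⟩
  rw [conj_pow] at hl
  have : g⁻¹ * c * g = g⁻¹ * c * g⁻¹⁻¹ := by rw [inv_inv]
  rw [this, conj_zpow, ← hl, inv_inv]
  group

theorem elem_mv' (hG : Geo Γ G K) {h k : ℤ × ℤ → V} (hf : IsFlat Γ h) (kf : IsFlat Γ k) {N : ℕ}
    (g : G) (m : ℤ) (hE : Elem (tripod G Γ h k N)) :
    Elem (tripod G Γ (fun z => g • h (z + (m, 0))) (fun z => g • k (z + (m, 0))) N) := by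
  apply elem_mv hG (flat_mv hG hf g (m, 0)) (flat_mv hG kf g (m, 0)) g⁻¹ (-m)
  convert hE using 2
  · funext z
    rw [inv_smul_smul]
    congr 1
    ext <;> simp
  · funext z
    rw [inv_smul_smul]
    congr 1
    ext <;> simp

/-- the branching rows with a tripod whose stabiliser is not elementary -/
def AmbN (G : Type*) [Group G] [MulAction G V] (Γ : SimpleGraph V) (L : Set (ℤ × ℤ → V)) (N : ℕ) :
    Set (ℤ → V) :=
  {q | ∃ h ∈ L, ∃ k ∈ L, (∀ i : ℤ, h (i, 0) = q i) ∧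
    (∀ i j : ℤ, -N ≤ j → j ≤ 0 → h (i, j) = k (i, j)) ∧ h (0, 1) ≠ k (0, 1) ∧
    ¬ Elem (tripod G Γ h k N)}

theorem ambN_rows (hG : Geo Γ G K) {L : Set (ℤ × ℤ → V)} (hL : Sys G Γ L) (N : ℕ) :
    Rows G (AmbN G Γ L N) := by
  refine ⟨fun q hq g m => ?_⟩
  obtain ⟨h, hh, k, hk, h0, h1, h2, h3⟩ := hq
  refine ⟨_, hL.mv h hh g (m, 0), _, hL.mv k hk g (m, 0), fun i => ?_, fun i j q1 q2 => ?_, ?_,
    fun hE => h3 (elem_mv hG (hL.flat h hh) (hL.flat k hk) g m hE)⟩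
  · simp only [Prod.mk_add_mk, add_zero, h0]
  · simp only [Prod.mk_add_mk, add_zero]
    rw [h1 _ _ q1 q2]
  · intro h3
    simp only [Prod.mk_add_mk, zero_add, add_zero] at h3
    apply h2
    exact row_all hG (hL.flat h hh) (hL.flat k hk) (y := 0) (y' := 1) (by simp)
      (fun x => h1 x 0 (by omega) le_rfl) (x := m) (smul_left_cancel g h3) 0

/-- if the rows of non-elementary tripods fall into finitely many orbits then there is `ℤ²` -/
theorem close_tri (hG : Geo Γ G K) (hno : ¬ HasCube Γ) {L : Set (ℤ × ℤ → V)} (hL : Sys G Γ L)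
    {N M : ℕ} (hne : (Amb L N).Nonempty) (c : AmbN G Γ L N → Fin M)
    (hc : ∀ q q' : AmbN G Γ L N, c q = c q' → ∃ g : G, ∀ i, g • q.1 i = q'.1 i) :
    ∃ φ : Multiplicative (ℤ × ℤ) →* G, Injective φ := by
  classical
  choose γ hγ using fun v : V => hG.cov v
  have hw : ∀ q : Amb L N, ∃ h ∈ L, ∃ k ∈ L, (∀ i : ℤ, h (i, 0) = q.1 i) ∧
    (∀ i j : ℤ, -N ≤ j → j ≤ 0 → h (i, j) = k (i, j)) ∧ h (0, 1) ≠ k (0, 1) := fun q => q.2
  choose h hh k hk h0 h1 h2 using hw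
  let B : ℕ → Set V := fun r => {w | ∃ u ∈ K, Γ.dist u w ≤ r}
  have hB : ∀ r, (B r).Finite := fun r => ballK hG r
  have fin1 : Finite (B (N + 1)) := (hB _).to_subtype
  have mem : ∀ (q : Amb L N) (z : ℤ × ℤ), |z.1| + |z.2| ≤ N + 1 →
      γ (q.1 0) • h q z ∈ B (N + 1) ∧ γ (q.1 0) • k q z ∈ B (N + 1) := by
    intro q z hz
    have k0 : k q (0, 0) = q.1 0 := by rw [← h1 q 0 0 (by omega) le_rfl, h0]
    have e1 := hL.flat _ (hh q) (0, 0) z
    have e2 := hL.flat _ (hk q) (0, 0) z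
    simp only [zero_sub, abs_neg] at e1 e2
    refine ⟨⟨_, hγ (q.1 0), ?_⟩, ⟨_, hγ (q.1 0), ?_⟩⟩
    · rw [hG.dist, ← h0 q 0]
      omega
    · rw [hG.dist, ← k0]
      omega
  have one : ((N : ℤ) + 1) = ((N + 1 : ℕ) : ℤ) := by push_cast; rfl
  let data : Amb L N → Fin M ⊕ ((Fin (N + 2) → B (N + 1)) × B (N + 1) × B (N + 1)) := fun q =>
    if hq : q.1 ∈ AmbN G Γ L N then Sum.inl (c ⟨q.1, hq⟩)
    else Sum.inr (fun j => ⟨γ (q.1 0) • h q (0, (j.1 : ℤ) - N), (mem q _ (by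
      have := j.2
      simp only [abs_zero, zero_add]
      rw [abs_le]
      constructor <;> omega)).1⟩,
      ⟨γ (q.1 0) • k q (0, 1), (mem q _ (by simp)).2⟩,
      ⟨γ (q.1 0) • h q (1, 0), (mem q _ (by simp)).1⟩)
  obtain ⟨M', ⟨e⟩⟩ := Finite.exists_equiv_fin
    (Fin M ⊕ ((Fin (N + 2) → B (N + 1)) × B (N + 1) × B (N + 1)))
  refine close hG hL hne (fun q => e (data q)) fun q q' hqq => ?_
  have hd := e.injective hqq
  by_cases hq : q.1 ∈ AmbN G Γ L N
  · by_cases hq' : q'.1 ∈ AmbN G Γ L N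
    · simp only [data, dif_pos hq, dif_pos hq', Sum.inl.injEq] at hd
      exact hc _ _ hd
    · simp only [data, dif_pos hq, dif_neg hq', reduceCtorEq] at hd
  · by_cases hq' : q'.1 ∈ AmbN G Γ L N
    · simp only [data, dif_neg hq, dif_pos hq', reduceCtorEq] at hd
    · simp only [data, dif_neg hq, dif_neg hq', Sum.inr.injEq, Prod.mk.injEq,
        Subtype.mk.injEq] at hd
      obtain ⟨d1, d2, d3⟩ := hd
      have hE : Elem (tripod G Γ (h q) (k q) N) := by
        by_contra hcon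
        exact hq ⟨h q, hh q, k q, hk q, h0 q, h1 q, h2 q, hcon⟩
      have hf := hL.flat _ (hh q)
      have kf := hL.flat _ (hk q)
      refine ⟨(γ (q'.1 0))⁻¹ * γ (q.1 0), fun i => ?_⟩
      have hE' := elem_mv' hG hf kf ((γ (q'.1 0))⁻¹ * γ (q.1 0)) 0 hE
      have := uniq hG hno (flat_mv hG hf ((γ (q'.1 0))⁻¹ * γ (q.1 0)) (0, 0))
        (flat_mv hG kf ((γ (q'.1 0))⁻¹ * γ (q.1 0)) (0, 0)) (hL.flat _ (hh q'))
        (hL.flat _ (hk q')) (N := N) (fun i => ?_) (fun i => h1 q' i 0 (by omega) le_rfl)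
        (fun j j1 j2 => ?_) ?_ ?_ hE' i
      · simp only [Prod.mk_add_mk, add_zero] at this
        rw [← h0 q i, this, h0 q' i]
      · simp only [Prod.mk_add_mk, add_zero]
        rw [h1 q i 0 (by omega) le_rfl]
      · have e1 := congrFun d1 ⟨(j + N).toNat, by omega⟩
        simp only [Subtype.mk.injEq] at e1
        rw [show (((j + N).toNat : ℕ) : ℤ) - N = j by omega] at e1
        simp only [Prod.mk_add_mk, add_zero]
        rw [mul_smul, e1, inv_smul_smul]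
      · simp only [Prod.mk_add_mk, add_zero]
        rw [mul_smul, d2, inv_smul_smul]
      · simp only [Prod.mk_add_mk, add_zero]
        rw [mul_smul, d3, inv_smul_smul]

theorem elem_of_vc {D : Subgroup G} (h : VirtuallyCyclic D) : Elem D := by
  obtain ⟨c, hc⟩ := h
  refine ⟨c.1, fun g hg => ?_⟩
  obtain ⟨n, hn, -, hmem⟩ := Subgroup.exists_pow_mem_of_index_ne_zero hc.index_ne_zero
    (⟨g, hg⟩ : D)
  obtain ⟨m, hm⟩ := Subgroup.mem_zpowers_iff.1 hmem
  refine ⟨n, hn, m, ?_⟩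
  have := congrArg Subtype.val hm
  simpa using this.symm

end Pool.Agent.H348.GB
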